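import Pool.Agent.K7.H41.BE.Count

/-!
# Graphs defined by bilinear equations: the main inequality
-/

set_option autoImplicit false

namespace Pool.Agent.K7.H41.BE

open Finset

variable {G G' H : Type} [AddCommGroup G] [AddCommGroup G'] [AddCommGroup H]

/-- the relation `B(x, y) = u(x) + v(y)` -/
def Rel (B : G →+ G' →+ H) (u : G → H) (v : G' → H) (x : G) (y : G') : Prop := B x y = u x + v y

open Classical in
/-- the neighbourhood of `y` -/
noncomputable def nb [Fintype G] (R : G → G' → Prop) (y : G') : Finset G := univ.filter fun x => R x y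

open Classical in
/-- the number of zeros of `B` -/
noncomputable def zeros [Fintype G] [Fintype G'] (B : G →+ G' →+ H) : ℕ :=
  ((univ : Finset (G × G')).filter fun p => B p.1 p.2 = 0).card

/-- a list without conflicts gives twice as many elements -/
theorem card_double [DecidableEq G] (h : G) (hh : h ≠ 0) : ∀ L : List G,
    L.Pairwise (fun a c => c ∉ ({a, a + h, a - h} : Finset G)) →
    (L.toFinset ∪ L.toFinset.image (· + h)).card = 2 * L.length := by
  intro L hL
  have hnd : L.Nodup := by
    refine hL.imp ?_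
    intro a b hab e
    exact hab (by simp [e])
  have hsym : ∀ a ∈ L, ∀ c ∈ L, c ≠ a + h := by
    intro a ha c hc e
    have h1 : L.Pairwise (fun a c => c ≠ a + h ∧ a ≠ c + h) := by
      refine hL.imp ?_
      intro a c hac
      rw [mem_insert, mem_insert, mem_singleton, not_or, not_or] at hac
      exact ⟨hac.2.1, fun e => hac.2.2 (by rw [e]; abel)⟩
    rcases eq_or_ne a c with rfl | hne
    · exact hh (by simpa using e.symm)
    · haveI : Std.Symm (fun a c : G => c ≠ a + h ∧ a ≠ c + h) := ⟨fun x y hxy => ⟨hxy.2, hxy.1⟩⟩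
      exact (h1.forall ha hc hne).1 e
  rw [card_union_of_disjoint, card_image_of_injective _ (add_left_injective h),
    List.toFinset_card_of_nodup hnd]
  · ring
  · rw [disjoint_left]
    intro c hc hc'
    obtain ⟨a, ha, e⟩ := mem_image.1 hc'
    exact hsym a (List.mem_toFinset.1 ha) c (List.mem_toFinset.1 hc) e.symm

variable [Fintype G] [Fintype G']

section main

variable (B : G →+ G' →+ H) (u : G → H) (v : G' → H)

open Classical in
/-- the number of `x` such that `x` and `x + h` are neighbours of `y` -/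
noncomputable def dd (h : G) (y : G') : ℕ :=
  (univ.filter fun x => Rel B u v x y ∧ Rel B u v (x + h) y).card

open Classical in
/-- the number of `x` with `u(x + h) - u(x) = B(h, y)` -/
noncomputable def qq (h : G) (y : G') : ℕ := (univ.filter fun x => u (x + h) - u x = B h y).card

omit [Fintype G] [Fintype G'] in
theorem rel_shift {x h : G} {y : G'} (hx : Rel B u v x y) :
    Rel B u v (x + h) y ↔ u (x + h) - u x = B h y := by
  unfold Rel at *
  rw [map_add, AddMonoidHom.add_apply, hx]
  constructor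
  · intro e
    rw [sub_eq_iff_eq_add]
    have : u x + v y + B h y = u (x + h) + v y := e
    have h2 : u x + B h y + v y = u (x + h) + v y := by rw [← this]; abel
    rw [← add_right_cancel h2]
    abel
  · intro e
    rw [← e]
    abel

open Classical in
/-- **One direction.** -/
theorem one_direction {k s : ℕ} (F : Finset G) (Y : Finset G')
    (hfree : KFree (2 * (k + 1)) s (Rel B u v) Fᶜ Y) (h : G) (hh : h ≠ 0) (τ : ℝ) (hτ : 0 < τ) :
    ((∑ y ∈ Y, dd B u v h y : ℕ) : ℝ) ≤ (3 * (k + 1) + 2 * F.card) * Y.card +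
      τ * ((∑ y ∈ Y, qq B u h y : ℕ) : ℝ) + s * Fintype.card G / τ ^ k := by
  -- the classes
  let I : Finset H := univ.image fun y : G' => B h y
  let Yc : H → Finset G' := fun c => Y.filter fun y => B h y = c
  let Xc : H → Finset G := fun c => univ.filter fun x => u (x + h) - u x = c
  let Bad : Finset G := F ∪ F.image (· - h)
  let D : G' → Finset G := fun y => (univ.filter fun x => Rel B u v x y ∧ Rel B u v (x + h) y) \ Bad
  have hBad : Bad.card ≤ 2 * F.card := by
    have h1 := card_union_le F (F.image (· - h))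
    have h2 := card_image_le (s := F) (f := (· - h))
    show (F ∪ F.image (· - h)).card ≤ _
    omega
  have hdD : ∀ y, dd B u v h y ≤ 2 * F.card + (D y).card := by
    intro y
    have h1 := le_card_sdiff Bad (univ.filter fun x => Rel B u v x y ∧ Rel B u v (x + h) y)
    show (univ.filter fun x => Rel B u v x y ∧ Rel B u v (x + h) y).card ≤ 2 * F.card +
      ((univ.filter fun x => Rel B u v x y ∧ Rel B u v (x + h) y) \ Bad).card
    omega
  have hclass : ∀ c ∈ I, ((∑ y ∈ Yc c, (D y).card : ℕ) : ℝ) ≤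
      3 * (k + 1) * (Yc c).card + τ * (Xc c).card * (Yc c).card + s * (Xc c).card / τ ^ k := by
    intro c _
    refine count_sizes (fun x : G => {x, x + h, x - h}) 3 s (fun x => card_le_three) (Xc c) k (Yc c) D ?_ ?_
      τ hτ
    · intro y hy x hx
      obtain ⟨hx, -⟩ := mem_sdiff.1 hx
      obtain ⟨-, h1, h2⟩ := mem_filter.1 hx
      rw [rel_shift B u v h1] at h2
      exact mem_filter.2 ⟨mem_univ _, h2.trans (mem_filter.1 hy).2⟩
    · intro L hL hLp Z hZ hZL
      rcases Z.eq_empty_or_nonempty with rfl | ⟨y0, hy0⟩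
      · simp
      have hmem := hZL y0 hy0
      refine hfree (L.toFinset ∪ L.toFinset.image (· + h)) ?_ Z (hZ.trans (filter_subset _ _))
        (by rw [card_double h hh L hLp, hL]) ?_
      · intro x hx
        rw [mem_compl]
        intro hxF
        rcases mem_union.1 hx with hx | hx
        · exact (mem_sdiff.1 (hmem x (List.mem_toFinset.1 hx))).2 (mem_union_left _ hxF)
        · obtain ⟨x', hx', rfl⟩ := mem_image.1 hx
          exact (mem_sdiff.1 (hmem x' (List.mem_toFinset.1 hx'))).2
            (mem_union_right _ (mem_image.2 ⟨x' + h, hxF, by abel⟩))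
      · intro x hx y hy
        rcases mem_union.1 hx with hx | hx
        · exact (mem_filter.1 (mem_sdiff.1 (hZL y hy x (List.mem_toFinset.1 hx))).1).2.1
        · obtain ⟨x', hx', rfl⟩ := mem_image.1 hx
          exact (mem_filter.1 (mem_sdiff.1 (hZL y hy x' (List.mem_toFinset.1 hx'))).1).2.2
  have hmaps : ∀ y ∈ Y, B h y ∈ I := fun y _ => mem_image_of_mem _ (mem_univ y)
  have e1 : (∑ c ∈ I, ∑ y ∈ Yc c, (D y).card) = ∑ y ∈ Y, (D y).card :=
    sum_fiberwise_of_maps_to hmaps _
  have e2 : (∑ c ∈ I, (Yc c).card) = Y.card := (card_eq_sum_card_fiberwise hmaps).symm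
  have e3 : (∑ c ∈ I, (Xc c).card * (Yc c).card) = ∑ y ∈ Y, qq B u h y := by
    rw [← sum_fiberwise_of_maps_to hmaps]
    refine sum_congr rfl fun c _ => ?_
    rw [mul_comm, ← smul_eq_mul, ← sum_const]
    refine sum_congr rfl fun y hy => ?_
    unfold qq
    rw [(mem_filter.1 hy).2]
  have e4 : (∑ c ∈ I, (Xc c).card) ≤ Fintype.card G := by
    rw [← card_univ, ← card_biUnion]
    · exact card_le_card (subset_univ _)
    · intro c _ c' _ hcc
      rw [Function.onFun, disjoint_left]
      intro x hx hx'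
      exact hcc ((mem_filter.1 hx).2.symm.trans (mem_filter.1 hx').2)
  have h1 : ((∑ y ∈ Y, (D y).card : ℕ) : ℝ) ≤ 3 * (k + 1) * Y.card +
      τ * ((∑ y ∈ Y, qq B u h y : ℕ) : ℝ) + s * Fintype.card G / τ ^ k := by
    rw [← e1]
    calc ((∑ c ∈ I, ∑ y ∈ Yc c, (D y).card : ℕ) : ℝ) = ∑ c ∈ I, ((∑ y ∈ Yc c, (D y).card : ℕ) : ℝ) := by
          push_cast
          rfl
      _ ≤ ∑ c ∈ I, ((3 * (k + 1) * (Yc c).card + τ * (Xc c).card * (Yc c).card) +
          s * (Xc c).card / τ ^ k) := sum_le_sum hclass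
      _ = 3 * (k + 1) * ((∑ c ∈ I, (Yc c).card : ℕ) : ℝ) + τ * ((∑ c ∈ I, (Xc c).card * (Yc c).card : ℕ) : ℝ)
          + s * ((∑ c ∈ I, (Xc c).card : ℕ) : ℝ) / τ ^ k := by
          rw [sum_add_distrib, sum_add_distrib, ← mul_sum, ← sum_div, ← mul_sum]
          push_cast
          congr 2
          rw [mul_sum]
          refine sum_congr rfl fun c _ => ?_
          ring
      _ ≤ _ := by
          rw [e2, e3]
          gcongr
  have h2 : ((∑ y ∈ Y, dd B u v h y : ℕ) : ℝ) ≤ 2 * F.card * Y.card + ((∑ y ∈ Y, (D y).card : ℕ) : ℝ) := by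
    have : ∑ y ∈ Y, dd B u v h y ≤ 2 * F.card * Y.card + ∑ y ∈ Y, (D y).card := by
      calc ∑ y ∈ Y, dd B u v h y ≤ ∑ y ∈ Y, (2 * F.card + (D y).card) := sum_le_sum fun y _ => hdD y
        _ = _ := by
          rw [sum_add_distrib, sum_const, smul_eq_mul]
          ring
    exact_mod_cast this
  linarith

omit [Fintype G'] in
open Classical in
theorem sum_dd (y : G') : ∑ h : G, dd B u v h y = (nb (Rel B u v) y).card ^ 2 := by
  have h1 : ∀ h : G, dd B u v h y = ∑ x ∈ nb (Rel B u v) y, if Rel B u v (x + h) y then 1 else 0 := by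
    intro h
    unfold dd nb
    rw [← card_filter, filter_filter]
  rw [sum_congr rfl fun h _ => h1 h, sum_comm, sq, ← smul_eq_mul, ← sum_const]
  refine sum_congr rfl fun x _ => ?_
  rw [← card_filter]
  unfold nb
  refine card_bij' (fun h _ => x + h) (fun z _ => z - x) ?_ ?_ ?_ ?_
  · intro h hh
    exact mem_filter.2 ⟨mem_univ _, (mem_filter.1 hh).2⟩
  · intro z hz
    refine mem_filter.2 ⟨mem_univ _, ?_⟩
    rw [add_sub_cancel]
    exact (mem_filter.1 hz).2
  · intro h _
    simp
  · intro z _
    simp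

omit [Fintype G'] in
theorem dd_zero (y : G') : dd B u v 0 y = (nb (Rel B u v) y).card := by
  classical
  unfold dd nb
  congr 1
  refine filter_congr fun x _ => ?_
  simp

open Classical in
/-- **The main inequality.** -/
theorem main_ineq {k s : ℕ} (F : Finset G) (Y : Finset G')
    (hfree : KFree (2 * (k + 1)) s (Rel B u v) Fᶜ Y) (τ : ℝ) (hτ : 0 < τ) :
    ((∑ y ∈ Y, (nb (Rel B u v) y).card ^ 2 : ℕ) : ℝ) ≤ ((∑ y ∈ Y, (nb (Rel B u v) y).card : ℕ) : ℝ) +
      Fintype.card G * ((3 * (k + 1) + 2 * F.card) * Y.card) +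
      τ * ((∑ y ∈ Y, ∑ h : G, qq B u h y : ℕ) : ℝ) + s * (Fintype.card G : ℝ) ^ 2 / τ ^ k := by
  have e1 : (∑ y ∈ Y, (nb (Rel B u v) y).card ^ 2) = ∑ h : G, ∑ y ∈ Y, dd B u v h y := by
    rw [sum_comm]
    exact sum_congr rfl fun y _ => (sum_dd B u v y).symm
  have e2 : (∑ h : G, ∑ y ∈ Y, dd B u v h y) =
      (∑ y ∈ Y, (nb (Rel B u v) y).card) + ∑ h ∈ univ.erase (0 : G), ∑ y ∈ Y, dd B u v h y := by
    rw [← add_sum_erase univ _ (mem_univ (0 : G))]
    congr 1
    exact sum_congr rfl fun y _ => dd_zero B u v y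
  rw [e1, e2, Nat.cast_add]
  have h1 : ((∑ h ∈ univ.erase (0 : G), ∑ y ∈ Y, dd B u v h y : ℕ) : ℝ) ≤
      ∑ h : G, ((3 * (k + 1) + 2 * F.card) * Y.card +
      τ * ((∑ y ∈ Y, qq B u h y : ℕ) : ℝ) + s * Fintype.card G / τ ^ k) := by
    rw [Nat.cast_sum]
    refine (sum_le_sum fun h hh => one_direction B u v F Y hfree h (ne_of_mem_erase hh) τ hτ).trans ?_
    refine sum_le_sum_of_subset_of_nonneg (erase_subset _ _) fun h _ _ => ?_
    positivity
  refine (add_le_add_right h1 _).trans (le_of_eq ?_)
  rw [sum_add_distrib, sum_add_distrib, sum_const, sum_const, nsmul_eq_mul, nsmul_eq_mul, card_univ,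
    ← mul_sum]
  have e3 : (∑ h : G, ((∑ y ∈ Y, qq B u h y : ℕ) : ℝ)) = ((∑ y ∈ Y, ∑ h : G, qq B u h y : ℕ) : ℝ) := by
    rw [sum_comm]
    push_cast
    rfl
  rw [e3]
  ring

open Classical in
/-- the sum of the numbers `q` is at most `|G|` times the number of zeros -/
theorem sum_qq : ∑ y : G', ∑ h : G, qq B u h y ≤ Fintype.card G * zeros B := by
  have h1 : ∀ (h : G) (c : H), (univ.filter fun y : G' => B h y = c).card ≤
      (univ.filter fun y : G' => B h y = 0).card := by
    intro h c
    rcases (Finset.eq_empty_or_nonempty (univ.filter fun y : G' => B h y = c)) with he | ⟨y0, hy0⟩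
    · rw [he]
      simp
    · refine card_le_card_of_injOn (fun y => y - y0) ?_ (fun a _ b _ e => by simpa using e)
      intro y hy
      simp only [coe_filter, mem_univ, true_and, Set.mem_ofPred_eq] at hy ⊢
      rw [map_sub, hy, (mem_filter.1 hy0).2, sub_self]
  calc ∑ y : G', ∑ h : G, qq B u h y
      = ∑ h : G, ∑ x : G, (univ.filter fun y : G' => B h y = u (x + h) - u x).card := by
        rw [sum_comm]
        refine sum_congr rfl fun h _ => ?_
        unfold qq
        simp only [card_filter]
        rw [sum_comm]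
        refine sum_congr rfl fun x _ => sum_congr rfl fun y _ => ?_
        simp only [eq_comm]
    _ ≤ ∑ h : G, ∑ _x : G, (univ.filter fun y : G' => B h y = 0).card :=
        sum_le_sum fun h _ => sum_le_sum fun x _ => h1 h _
    _ = Fintype.card G * zeros B := by
        unfold zeros
        simp only [sum_const, smul_eq_mul, card_univ]
        rw [← mul_sum]
        congr 1
        rw [card_filter, Fintype.sum_prod_type]
        refine sum_congr rfl fun h _ => ?_
        rw [card_filter]

end main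

end Pool.Agent.K7.H41.BE
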