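import Pool.Agent.K7.H41.BE.Induct
import Pool.Agent.K7.H41.BE.Bil

/-!
# Bilinear maps with many zeros
-/

set_option autoImplicit false

namespace Pool.Agent.K7.H41.BE

open Finset

section

variable {G G' H : Type} [AddCommGroup G] [AddCommGroup G'] [AddCommGroup H]

open Classical in
/-- the size of a subgroup -/
noncomputable def sz [Fintype G] (K : AddSubgroup G) : ℕ := (univ.filter fun h : G => h ∈ K).card

theorem sz_pos [Fintype G] (K : AddSubgroup G) : 0 < sz K := by
  classical
  unfold sz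
  exact card_pos.2 ⟨0, mem_filter.2 ⟨mem_univ _, K.zero_mem⟩⟩

/-- the product formula for two subgroups, as an inequality -/
theorem sz_mul_le [Fintype G] (P Q R : AddSubgroup G) (hP : P ≤ R) (hQ : Q ≤ R) :
    sz P * sz Q ≤ sz (P ⊓ Q) * sz R := by
  classical
  unfold sz
  rw [← card_product]
  refine card_le_mul_card_image_of_maps_to (f := fun p : G × G => p.1 + p.2) ?_ _ ?_
  · intro p hp
    obtain ⟨h1, h2⟩ := mem_product.1 hp
    exact mem_filter.2 ⟨mem_univ _, R.add_mem (hP (mem_filter.1 h1).2) (hQ (mem_filter.1 h2).2)⟩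
  · intro c _
    rcases (Finset.eq_empty_or_nonempty (((univ.filter fun h : G => h ∈ P) ×ˢ
      (univ.filter fun h : G => h ∈ Q)).filter fun p : G × G => p.1 + p.2 = c)) with he | ⟨p0, hp0⟩
    · rw [he]
      simp
    · rw [mem_filter, mem_product, mem_filter, mem_filter] at hp0
      refine card_le_card_of_injOn (fun p => p.1 - p0.1) ?_ ?_
      · intro p hp
        rw [mem_coe, mem_filter, mem_product, mem_filter, mem_filter] at hp
        rw [mem_coe, mem_filter]
        refine ⟨mem_univ _, P.sub_mem hp.1.1.2 hp0.1.1.2, ?_⟩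
        have : p.1 - p0.1 = p0.2 - p.2 := by
          rw [sub_eq_sub_iff_add_eq_add, hp.2, ← hp0.2, add_comm]
        show p.1 - p0.1 ∈ Q
        rw [this]
        exact Q.sub_mem hp0.1.2.2 hp.1.2.2
      · intro p hp p' hp' e
        rw [mem_coe, mem_filter] at hp hp'
        have e1 : p.1 = p'.1 := sub_left_injective e
        refine Prod.ext e1 ?_
        have := hp.2.trans hp'.2.symm
        rw [e1] at this
        exact add_left_cancel this

/-- the kernel of `B(h, ·)` -/
def ker2 (B : G →+ G' →+ H) (h : G) : AddSubgroup G' := (B h).ker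

theorem sz_ker2 [Fintype G'] (B : G →+ G' →+ H) (h : G) : sz (ker2 B h) = pz B h := by
  unfold sz ker2 pz
  congr 1

theorem sz_top [Fintype G] : sz (⊤ : AddSubgroup G) = Fintype.card G := by
  unfold sz
  simp

theorem sz_mono [Fintype G] {P Q : AddSubgroup G} (h : P ≤ Q) : sz P ≤ sz Q := by
  classical
  unfold sz
  refine card_le_card fun x hx => ?_
  rw [mem_filter] at hx ⊢
  exact ⟨hx.1, h hx.2⟩

theorem pz_add [Fintype G'] (B : G →+ G' →+ H) (h k : G) :
    pz B h * pz B k ≤ pz B (h + k) * Fintype.card G' := by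
  rw [← sz_ker2, ← sz_ker2, ← sz_ker2, ← sz_top]
  refine (sz_mul_le _ _ ⊤ le_top le_top).trans (Nat.mul_le_mul_right _ (sz_mono ?_))
  intro y hy
  obtain ⟨h1, h2⟩ := hy
  have h1' : B h y = 0 := h1
  have h2' : B k y = 0 := h2
  show B (h + k) y = 0
  rw [map_add, AddMonoidHom.add_apply, h1', h2', add_zero]

theorem zeros_eq [Fintype G] [Fintype G'] (B : G →+ G' →+ H) : zeros B = ∑ h : G, pz B h := by
  classical
  unfold zeros pz
  rw [card_filter, Fintype.sum_prod_type]
  refine sum_congr rfl fun h _ => ?_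
  rw [card_filter]

/-- the elements which are orthogonal to three given ones -/
def orth (B : G →+ G' →+ H) (y : Fin 3 → G') : AddSubgroup G where
  carrier := {h | ∀ i, B h (y i) = 0}
  zero_mem' := fun i => by simp
  neg_mem' := fun {h} hh i => by
    rw [map_neg, AddMonoidHom.neg_apply, hh i, neg_zero]
  add_mem' := fun {h k} hh hk i => by
    rw [map_add, AddMonoidHom.add_apply, hh i, hk i, add_zero]

open Classical in
theorem triple_count [Fintype G'] (B : G →+ G' →+ H) (D : Finset G) :
    ∑ y : Fin 3 → G', (D.filter fun h => h ∈ orth B y).card = ∑ h ∈ D, pz B h ^ 3 := by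
  simp only [card_filter]
  rw [sum_comm]
  refine sum_congr rfl fun h _ => ?_
  rw [← card_filter]
  unfold pz
  rw [← Fintype.card_piFinset_const]
  congr 1
  ext y
  rw [mem_filter, Fintype.mem_piFinset]
  simp only [mem_univ, true_and, mem_filter]
  rfl

/-- **A large subgroup on which all the maps `B(h, ·)` have large kernels.** -/
theorem good_subgroup [Fintype G] [Fintype G'] (B : G →+ G' →+ H) (p : ℝ) (hp : 0 < p) (hp' : p ≤ 1 / 2)
    (hz : 2 * p * (Fintype.card G * Fintype.card G') ≤ zeros B) :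
    ∃ K : AddSubgroup G, p ^ 4 / 2 * Fintype.card G ≤ sz K ∧
      ∀ h ∈ K, p ^ 4 * Fintype.card G' ≤ pz B h := by
  classical
  set n : ℝ := (Fintype.card G : ℝ) with hn
  set m : ℝ := (Fintype.card G' : ℝ) with hm
  have hn0 : 0 < n := by
    rw [hn]
    exact_mod_cast Fintype.card_pos
  have hm0 : 0 < m := by
    rw [hm]
    exact_mod_cast Fintype.card_pos
  set D : Finset G := univ.filter fun h => p * m ≤ pz B h with hD
  set Bad : Finset G := univ.filter fun h => (pz B h : ℝ) < p ^ 2 * m with hBad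
  have hDn : p * n ≤ D.card := by
    have h1 : (zeros B : ℝ) ≤ D.card * m + n * (p * m) := by
      rw [zeros_eq]
      push_cast
      calc (∑ h : G, (pz B h : ℝ)) ≤ ∑ h : G, ((if p * m ≤ pz B h then m else 0) + p * m) := by
            refine sum_le_sum fun h _ => ?_
            have h2 : (pz B h : ℝ) ≤ m := by
              rw [hm]
              exact_mod_cast pz_le B h
            have h3 : 0 < p * m := by positivity
            split_ifs with hc
            · linarith
            · linarith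
        _ = D.card * m + n * (p * m) := by
            rw [sum_add_distrib, ← sum_filter, sum_const, sum_const, nsmul_eq_mul, nsmul_eq_mul, card_univ]
    have h2 : p * n * m ≤ D.card * m := by
      have h4 : 2 * p * (n * m) = p * n * m + n * (p * m) := by ring
      linarith
    exact le_of_mul_le_mul_right h2 hm0
  have h1 : (∑ _y : Fin 3 → G', p ^ 4 / 2 * n) ≤ ∑ y : Fin 3 → G',
      (((D.filter fun h => h ∈ orth B y).card : ℝ) - 2 * ((Bad.filter fun h => h ∈ orth B y).card : ℝ)) := by
    have e1 : (∑ y : Fin 3 → G', ((D.filter fun h => h ∈ orth B y).card : ℝ)) = ∑ h ∈ D, (pz B h : ℝ) ^ 3 := by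
      exact_mod_cast triple_count B D
    have e2 : (∑ y : Fin 3 → G', (2 * ((Bad.filter fun h => h ∈ orth B y).card : ℝ))) =
        2 * ∑ h ∈ Bad, (pz B h : ℝ) ^ 3 := by
      rw [← mul_sum]
      congr 1
      exact_mod_cast triple_count B Bad
    rw [sum_sub_distrib, e1, e2, sum_const, nsmul_eq_mul, card_univ, Fintype.card_pi_const]
    push_cast
    rw [← hm]
    have h2 : D.card * (p * m) ^ 3 ≤ ∑ h ∈ D, (pz B h : ℝ) ^ 3 := by
      rw [← nsmul_eq_mul, ← sum_const]
      refine sum_le_sum fun h hh => ?_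
      exact pow_le_pow_left₀ (by positivity) (mem_filter.1 hh).2 3
    have h3 : ∑ h ∈ Bad, (pz B h : ℝ) ^ 3 ≤ n * (p ^ 2 * m) ^ 3 := by
      calc ∑ h ∈ Bad, (pz B h : ℝ) ^ 3 ≤ ∑ _h ∈ Bad, (p ^ 2 * m) ^ 3 := by
            refine sum_le_sum fun h hh => ?_
            exact pow_le_pow_left₀ (Nat.cast_nonneg _) (mem_filter.1 hh).2.le 3
        _ = Bad.card * (p ^ 2 * m) ^ 3 := by rw [sum_const, nsmul_eq_mul]
        _ ≤ n * (p ^ 2 * m) ^ 3 := by
            refine mul_le_mul_of_nonneg_right ?_ (by positivity)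
            rw [hn]
            exact_mod_cast card_le_univ _
    have h4 : p * n * (p * m) ^ 3 ≤ D.card * (p * m) ^ 3 := mul_le_mul_of_nonneg_right hDn (by positivity)
    have h5 : m ^ 3 * (p ^ 4 / 2 * n) ≤ p * n * (p * m) ^ 3 - 2 * (n * (p ^ 2 * m) ^ 3) := by
      have h6 : p ^ 2 ≤ 1 / 4 := by nlinarith
      have h7 : 0 ≤ p ^ 4 * n * m ^ 3 := by positivity
      have h8 : p ^ 2 * (p ^ 4 * n * m ^ 3) ≤ 1 / 4 * (p ^ 4 * n * m ^ 3) := mul_le_mul_of_nonneg_right h6 h7
      have h9 : p * n * (p * m) ^ 3 - 2 * (n * (p ^ 2 * m) ^ 3) =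
          p ^ 4 * n * m ^ 3 - 2 * (p ^ 2 * (p ^ 4 * n * m ^ 3)) := by ring
      rw [h9]
      have h10 : m ^ 3 * (p ^ 4 / 2 * n) = 1 / 2 * (p ^ 4 * n * m ^ 3) := by ring
      rw [h10]
      linarith
    linarith
  obtain ⟨y, -, hy⟩ := exists_le_of_sum_le (univ_nonempty) h1
  have hpn : 0 < p ^ 4 / 2 * n := by positivity
  have hDK : ((D.filter fun h => h ∈ orth B y).card : ℝ) ≤ sz (orth B y) := by
    unfold sz
    refine Nat.cast_le.2 (card_le_card fun h hh => ?_)
    rw [mem_filter] at hh ⊢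
    exact ⟨mem_univ _, hh.2⟩
  have hBK : (0 : ℝ) ≤ ((Bad.filter fun h => h ∈ orth B y).card : ℝ) := Nat.cast_nonneg _
  refine ⟨orth B y, by linarith, ?_⟩
  intro h hh
  obtain ⟨k, hk, hk1, hk2⟩ : ∃ k ∈ orth B y, k ∉ Bad ∧ h - k ∉ Bad := by
    by_contra hcon
    push Not at hcon
    have h2 : sz (orth B y) ≤ 2 * (Bad.filter fun h => h ∈ orth B y).card := by
      unfold sz
      have h3 : (univ.filter fun h : G => h ∈ orth B y) ⊆
          (Bad.filter fun h => h ∈ orth B y) ∪ (Bad.filter fun h => h ∈ orth B y).image (fun k => h - k) := by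
        intro k hk
        have hk' := (mem_filter.1 hk).2
        by_cases hkB : k ∈ Bad
        · exact mem_union_left _ (mem_filter.2 ⟨hkB, hk'⟩)
        · refine mem_union_right _ (mem_image.2 ⟨h - k, mem_filter.2 ⟨hcon k hk' hkB, ?_⟩, by abel⟩)
          exact (orth B y).sub_mem hh hk'
      have h4 := card_le_card h3
      have h5 := card_union_le (Bad.filter fun h => h ∈ orth B y)
        ((Bad.filter fun h => h ∈ orth B y).image (fun k => h - k))
      have h6 := card_image_le (s := Bad.filter fun h => h ∈ orth B y) (f := fun k => h - k)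
      omega
    have h3 : (sz (orth B y) : ℝ) ≤ 2 * ((Bad.filter fun h => h ∈ orth B y).card : ℝ) := by
      exact_mod_cast h2
    linarith
  have h2 : p ^ 2 * m ≤ pz B k := by
    by_contra hc
    exact hk1 (mem_filter.2 ⟨mem_univ _, not_le.1 hc⟩)
  have h3 : p ^ 2 * m ≤ pz B (h - k) := by
    by_contra hc
    exact hk2 (mem_filter.2 ⟨mem_univ _, not_le.1 hc⟩)
  have h4 := pz_add B k (h - k)
  rw [add_sub_cancel] at h4
  have h5 : (pz B k : ℝ) * pz B (h - k) ≤ pz B h * m := by
    rw [hm]
    exact_mod_cast h4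
  have h6 : (p ^ 2 * m) * (p ^ 2 * m) ≤ pz B k * pz B (h - k) :=
    mul_le_mul h2 h3 (by positivity) (Nat.cast_nonneg _)
  have h7 : (p ^ 4 * m) * m ≤ pz B h * m := by
    calc (p ^ 4 * m) * m = (p ^ 2 * m) * (p ^ 2 * m) := by ring
      _ ≤ _ := h6.trans h5
  exact le_of_mul_le_mul_right h7 hm0

end

end Pool.Agent.K7.H41.BE
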