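import Pool.Agent.K7.H41.BE.Final

/-!
# Bilinear equations on subsets
-/

set_option autoImplicit false

namespace Pool.Agent.K7.H41.BE

open Finset

section

variable {G G' H : Type} [AddCommGroup G] [AddCommGroup G'] [AddCommGroup H]

/-- the map `B` with values in `H × ℤ` -/
def liftB (B : G →+ G' →+ H) : G →+ G' →+ H × ℤ := B.compr₂ (AddMonoidHom.inl H ℤ)

theorem liftB_apply (B : G →+ G' →+ H) (x : G) (y : G') : liftB B x y = (B x y, 0) := rfl

open Classical in
/-- a function on a subset -/
noncomputable def liftU {α : Type} (S : Finset α) (u : α → H) (x : α) : H × ℤ := if x ∈ S then (u x, 0) else (0, 1)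

theorem rel_lift (B : G →+ G' →+ H) (u : G → H) (v : G' → H) (S : Finset G) (T : Finset G') (x : G) (y : G') :
    Rel (liftB B) (liftU S u) (liftU T v) x y ↔ x ∈ S ∧ y ∈ T ∧ Rel B u v x y := by
  unfold Rel
  rw [liftB_apply]
  unfold liftU
  by_cases hx : x ∈ S <;> by_cases hy : y ∈ T
  · rw [if_pos hx, if_pos hy]
    simp [hx, hy]
  · rw [if_pos hx, if_neg hy]
    simp [hx, hy]
  · rw [if_neg hx, if_pos hy]
    simp [hx, hy]
  · rw [if_neg hx, if_neg hy]
    simp [hx, hy]

theorem zeros_lift [Fintype G] [Fintype G'] (B : G →+ G' →+ H) : zeros (liftB B) = zeros B := by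
  rw [zeros_eq, zeros_eq]
  refine sum_congr rfl fun h _ => ?_
  rw [← sz_ker2, ← sz_ker2]
  congr 1
  ext y
  show liftB B h y = 0 ↔ B h y = 0
  rw [liftB_apply, Prod.mk_eq_zero]
  simp

open Classical in
theorem nb_lift [Fintype G] (B : G →+ G' →+ H) (u : G → H) (v : G' → H) (S : Finset G) (T : Finset G')
    (y : G') : nb (Rel (liftB B) (liftU S u) (liftU T v)) y =
      if y ∈ T then S.filter fun x => Rel B u v x y else ∅ := by
  unfold nb
  ext x
  rw [mem_filter, rel_lift]
  by_cases hy : y ∈ T
  · rw [if_pos hy, mem_filter]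
    simp [hy]
  · rw [if_neg hy]
    simp [hy]

theorem pairs_lift [Fintype G] [Fintype G'] (B : G →+ G' →+ H) (u : G → H) (v : G' → H) (S : Finset G)
    (T : Finset G') : (pairs (Rel (liftB B) (liftU S u) (liftU T v)) : ℝ) = cnt (Rel B u v) S T := by
  classical
  unfold pairs cnt
  congr 1
  simp_rw [nb_lift]
  rw [← sum_filter_add_sum_filter_not univ (fun y => y ∈ T)]
  have h1 : (∑ y ∈ univ.filter (fun y => ¬ y ∈ T), (if y ∈ T then S.filter fun x => Rel B u v x y else ∅).card) = 0 := by
    refine sum_eq_zero fun y hy => ?_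
    rw [if_neg (mem_filter.1 hy).2, card_empty]
  rw [h1, add_zero]
  have h2 : univ.filter (fun y => y ∈ T) = T := by
    ext y
    simp
  rw [h2]
  refine sum_congr rfl fun y hy => ?_
  rw [if_pos hy]

theorem KFree_lift {r s : ℕ} (hr : 1 ≤ r) [Fintype G] [Fintype G'] (B : G →+ G' →+ H) (u : G → H)
    (v : G' → H) (S : Finset G) (T : Finset G') (h : KFree r s (Rel B u v) S T) :
    KFree r s (Rel (liftB B) (liftU S u) (liftU T v)) univ univ := by
  intro A _ Z _ hc hR
  rcases Z.eq_empty_or_nonempty with rfl | ⟨y0, hy0⟩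
  · simp
  obtain ⟨x0, hx0⟩ := card_pos.1 (by omega : 0 < A.card)
  refine h A ?_ Z ?_ hc ?_
  · intro x hx
    exact ((rel_lift B u v S T x y0).1 (hR x hx y0 hy0)).1
  · intro y hy
    exact ((rel_lift B u v S T x0 y).1 (hR x0 hx0 y hy)).2.1
  · intro x hx y hy
    exact ((rel_lift B u v S T x y).1 (hR x hx y hy)).2.2

end

/-- **Bilinear equations on subsets.** -/
theorem few_cnt (r s : ℕ) (hr : 4 ≤ r) (c : ℝ) (hc : 0 < c) : ∃ ν₀ : ℝ,
    ∀ (G G' H : Type) [AddCommGroup G] [AddCommGroup G'] [AddCommGroup H] [Fintype G] [Fintype G']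
      (B : G →+ G' →+ H) (u : G → H) (v : G' → H) (n ν : ℝ) (S : Finset G) (T : Finset G'),
      (Fintype.card G : ℝ) ≤ n → (Fintype.card G' : ℝ) ≤ n → ν₀ ≤ ν → ν ^ r = n →
      KFree r s (Rel B u v) S T → cnt (Rel B u v) S T < c * (n ^ 2 / ν) := by
  obtain ⟨ν₀, hν₀⟩ := few_pairs r s hr c hc
  refine ⟨ν₀, ?_⟩
  intro G G' H _ _ _ _ _ B u v n ν S T hn hn' hν hνn hfree
  rw [← pairs_lift]
  exact hν₀ G G' (H × ℤ) (liftB B) (liftU S u) (liftU T v) n ν hn hn' hν hνn
    (KFree_lift (by omega) B u v S T hfree)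

section onto

variable {G G' H : Type} [AddCommGroup G] [AddCommGroup G'] [AddCommGroup H]

open Classical in
theorem sum_sq_fibres {α β : Type} [Fintype β] (S : Finset α) (g : α → β) :
    (∑ c : β, (S.filter fun x => g x = c).card ^ 2) = ∑ x ∈ S, ∑ x' ∈ S, if g x = g x' then 1 else 0 := by
  have h1 : ∀ c : β, (S.filter fun x => g x = c).card ^ 2 =
      ∑ x ∈ S, ∑ x' ∈ S, if c = g x then (if g x = g x' then 1 else 0) else 0 := by
    intro c
    rw [sq, card_filter, sum_mul_sum]
    refine sum_congr rfl fun x _ => sum_congr rfl fun x' _ => ?_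
    by_cases e1 : g x = c
    · subst e1
      by_cases e2 : g x' = g x
      · simp [e2]
      · simp [e2, Ne.symm e2]
    · simp [e1, Ne.symm e1]
  rw [sum_congr rfl fun c _ => h1 c, sum_comm]
  refine sum_congr rfl fun x _ => ?_
  rw [sum_comm]
  refine sum_congr rfl fun x' _ => ?_
  rw [sum_ite_eq' univ (g x)]
  simp

/-- **The second moment for nondegenerate maps.** -/
theorem second_onto [Fintype G] [Fintype G'] [Fintype H] (B : G →+ G' →+ H)
    (hB : ∀ h, h ≠ 0 → Function.Surjective (B h)) (u : G → H) (v : G' → H) (S : Finset G)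
    (T : Finset G') :
    ((T.card : ℝ) * (S.card / Fintype.card H) - cnt (Rel B u v) S T) ^ 2 ≤
      T.card * (S.card * Fintype.card G') := by
  classical
  set q : ℝ := (Fintype.card H : ℝ) with hq
  have hq0 : 0 < q := by
    rw [hq]
    exact_mod_cast Fintype.card_pos
  set f : G' → H → ℝ := fun y c => ((S.filter fun x => B x y - u x = c).card : ℝ) with hf
  have hfsum : ∀ y, (∑ c : H, f y c) = S.card := by
    intro y
    rw [card_eq_sum_card_fiberwise (s := S) (f := fun x => B x y - u x) (t := univ)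
      (fun x _ => mem_coe.2 (mem_univ _))]
    push_cast
    rfl
  have hsq : (∑ y : G', ∑ c : H, f y c ^ 2) ≤ S.card * (S.card * (Fintype.card G' / q)) +
      S.card * Fintype.card G' := by
    have h1 : ∀ y : G', (∑ c : H, f y c ^ 2) =
        ∑ x ∈ S, ∑ x' ∈ S, if B x y - u x = B x' y - u x' then (1 : ℝ) else 0 := by
      intro y
      rw [hf]
      simp only
      exact_mod_cast sum_sq_fibres S (fun x => B x y - u x)
    rw [sum_congr rfl fun y _ => h1 y, sum_comm]
    have h2 : ∀ x ∈ S, (∑ y : G', ∑ x' ∈ S, if B x y - u x = B x' y - u x' then (1 : ℝ) else 0) ≤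
        S.card * (Fintype.card G' / q) + Fintype.card G' := by
      intro x hx
      rw [sum_comm]
      have h3 : ∀ x' ∈ S, (∑ y : G', if B x y - u x = B x' y - u x' then (1 : ℝ) else 0) ≤
          Fintype.card G' / q + if x' = x then (Fintype.card G' : ℝ) else 0 := by
        intro x' _
        rw [← sum_filter, sum_const, nsmul_eq_mul, mul_one]
        by_cases e : x' = x
        · rw [if_pos e]
          have h4 : ((univ.filter fun y : G' => B x y - u x = B x' y - u x').card : ℝ) ≤ Fintype.card G' := by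
            exact_mod_cast card_le_univ _
          have h5 : (0 : ℝ) ≤ Fintype.card G' / q := by positivity
          linarith
        · rw [if_neg e, add_zero]
          have hne : x - x' ≠ 0 := sub_ne_zero.2 (Ne.symm e)
          obtain ⟨y0, hy0⟩ := hB _ hne (u x - u x')
          have h4 : (univ.filter fun y : G' => B x y - u x = B x' y - u x') =
              univ.filter fun y : G' => B (x - x') y = B (x - x') y0 := by
            refine filter_congr fun y _ => ?_
            rw [hy0, map_sub, AddMonoidHom.sub_apply]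
            exact sub_eq_sub_iff_sub_eq_sub
          rw [h4, fibre_card, le_div_iff₀ hq0]
          have h5 := pz_mul B (x - x') univ (fun _ => mem_univ _) (fun c _ => hB _ hne c)
          rw [card_univ] at h5
          rw [mul_comm, hq]
          exact_mod_cast h5.le
      refine (sum_le_sum h3).trans (le_of_eq ?_)
      rw [sum_add_distrib, sum_const, nsmul_eq_mul, sum_ite_eq' S x, if_pos hx]
    refine (sum_le_sum h2).trans (le_of_eq ?_)
    rw [sum_const, nsmul_eq_mul]
    ring
  have hvar : (∑ y : G', ∑ c : H, (f y c - S.card / q) ^ 2) ≤ S.card * Fintype.card G' := by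
    have h1 : ∀ y : G', (∑ c : H, (f y c - S.card / q) ^ 2) = (∑ c : H, f y c ^ 2) - S.card ^ 2 / q := by
      intro y
      have h2 : ∀ c : H, (f y c - S.card / q) ^ 2 =
          f y c ^ 2 - 2 * (S.card / q) * f y c + (S.card / q) ^ 2 := fun c => by ring
      rw [sum_congr rfl fun c _ => h2 c, sum_add_distrib, sum_sub_distrib, ← mul_sum, hfsum, sum_const,
        nsmul_eq_mul, card_univ, ← hq]
      field_simp
      ring
    rw [sum_congr rfl fun y _ => h1 y, sum_sub_distrib, sum_const, nsmul_eq_mul, card_univ]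
    have h3 : (Fintype.card G' : ℝ) * (S.card ^ 2 / q) = S.card * (S.card * (Fintype.card G' / q)) := by
      ring
    rw [h3]
    linarith
  have hcnt : (T.card : ℝ) * (S.card / q) - cnt (Rel B u v) S T =
      ∑ y ∈ T, ((S.card : ℝ) / q - f y (v y)) := by
    rw [sum_sub_distrib, sum_const, nsmul_eq_mul]
    congr 1
    unfold cnt
    rw [hf]
    push_cast
    refine sum_congr rfl fun y _ => ?_
    congr 2
    refine filter_congr fun x _ => ?_
    unfold Rel
    rw [sub_eq_iff_eq_add, add_comm]
  rw [hcnt]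
  calc (∑ y ∈ T, ((S.card : ℝ) / q - f y (v y))) ^ 2
      ≤ T.card * ∑ y ∈ T, ((S.card : ℝ) / q - f y (v y)) ^ 2 := sq_sum_le_card_mul_sum_sq
    _ ≤ T.card * ∑ y : G', ∑ c : H, (f y c - S.card / q) ^ 2 := by
        refine mul_le_mul_of_nonneg_left ?_ (Nat.cast_nonneg _)
        refine le_trans (sum_le_sum fun y hy => ?_) (sum_le_sum_of_subset_of_nonneg (subset_univ T)
          fun y _ _ => sum_nonneg fun c _ => sq_nonneg _)
        have h5 : ((S.card : ℝ) / q - f y (v y)) ^ 2 = (f y (v y) - S.card / q) ^ 2 := by ring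
        rw [h5]
        exact single_le_sum (f := fun c => (f y c - S.card / q) ^ 2) (fun c _ => sq_nonneg _) (mem_univ (v y))
    _ ≤ T.card * (S.card * Fintype.card G') := mul_le_mul_of_nonneg_left hvar (Nat.cast_nonneg _)

theorem zeros_onto [Fintype G] [Fintype G'] [Fintype H] (B : G →+ G' →+ H)
    (hB : ∀ h, h ≠ 0 → Function.Surjective (B h)) :
    (zeros B : ℝ) ≤ Fintype.card G * (Fintype.card G' / Fintype.card H) + Fintype.card G' := by
  classical
  have hq0 : (0 : ℝ) < Fintype.card H := by exact_mod_cast Fintype.card_pos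
  rw [zeros_eq]
  push_cast
  have h1 : ∀ h : G, (pz B h : ℝ) ≤ Fintype.card G' / Fintype.card H + if h = 0 then (Fintype.card G' : ℝ) else 0 := by
    intro h
    by_cases e : h = 0
    · rw [if_pos e]
      have h4 : (pz B h : ℝ) ≤ Fintype.card G' := by exact_mod_cast pz_le B h
      have h5 : (0 : ℝ) ≤ Fintype.card G' / Fintype.card H := by positivity
      linarith
    · rw [if_neg e, add_zero, le_div_iff₀ hq0]
      have h5 := pz_mul B h univ (fun _ => mem_univ _) (fun c _ => hB _ e c)
      rw [card_univ] at h5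
      rw [mul_comm]
      exact_mod_cast h5.le
  refine (sum_le_sum fun h _ => h1 h).trans (le_of_eq ?_)
  rw [sum_add_distrib, sum_const, nsmul_eq_mul, card_univ, sum_ite_eq' univ (0 : G), if_pos (mem_univ _)]

end onto

end Pool.Agent.K7.H41.BE
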