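import Pool.Agent.K7.H41.BE.Graph

/-!
# The extremal graphs for `K_{3,3}` are given by a nondegenerate bilinear equation
-/

set_option autoImplicit false

namespace Pool.Agent.K7.H41.BE

open Finset Pool.Agent.TH17.LD

/-- the bilinear form `x₂ y₂ - 2 x₀ y₀ - 2 x₁ y₁` -/
def quadB (F : Type) [Field F] : (Fin 3 → F) →+ (Fin 3 → F) →+ F :=
  AddMonoidHom.mk' (fun x => AddMonoidHom.mk' (fun y => x 2 * y 2 - 2 * x 0 * y 0 - 2 * x 1 * y 1)
    (fun y y' => by simp only [Pi.add_apply]; ring))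
    (fun x x' => by
      refine AddMonoidHom.ext fun y => ?_
      simp only [AddMonoidHom.mk'_apply, AddMonoidHom.add_apply, Pi.add_apply]
      ring)

theorem quadB_apply (F : Type) [Field F] (x y : Fin 3 → F) :
    quadB F x y = x 2 * y 2 - 2 * x 0 * y 0 - 2 * x 1 * y 1 := rfl

/-- the equation `(x₀ + y₀)² + (x₁ + y₁)² = x₂ y₂` -/
def quadE (F : Type) [Field F] : BilEq (Fin 3 → F) where
  G := Fin 3 → F
  G' := Fin 3 → F
  H := F
  a := id
  b := id
  B := quadB F
  u := fun x => x 0 ^ 2 + x 1 ^ 2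
  v := fun x => x 0 ^ 2 + x 1 ^ 2
  inj_a := Function.injective_id
  inj_b := Function.injective_id

theorem quadE_holds (F : Type) [Field F] (x y : Fin 3 → F) :
    (quadE F).Holds x y ↔ (x 0 + y 0) ^ 2 + (x 1 + y 1) ^ 2 = x 2 * y 2 := by
  have h1 : (quadE F).Holds x y ↔
      x 2 * y 2 - 2 * x 0 * y 0 - 2 * x 1 * y 1 = (x 0 ^ 2 + x 1 ^ 2) + (y 0 ^ 2 + y 1 ^ 2) := Iff.rfl
  rw [h1]
  constructor
  · intro h
    linear_combination -h
  · intro h
    linear_combination -h

theorem quadB_surjective (F : Type) [Field F] (h2 : (2 : F) ≠ 0) (h : Fin 3 → F) (hh : h ≠ 0) :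
    Function.Surjective (quadB F h) := by
  intro c
  obtain ⟨i, hi⟩ := Function.ne_iff.1 hh
  have hi' : h i ≠ 0 := hi
  have h3 : h 0 ≠ 0 ∨ h 1 ≠ 0 ∨ h 2 ≠ 0 := by
    fin_cases i
    · exact Or.inl hi'
    · exact Or.inr (Or.inl hi')
    · exact Or.inr (Or.inr hi')
  rcases h3 with h3 | h3 | h3
  · refine ⟨![-c / (2 * h 0), 0, 0], ?_⟩
    rw [quadB_apply]
    simp only [Matrix.cons_val_zero, Matrix.cons_val_one, Matrix.cons_val]
    field_simp
    ring
  · refine ⟨![0, -c / (2 * h 1), 0], ?_⟩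
    rw [quadB_apply]
    simp only [Matrix.cons_val_zero, Matrix.cons_val_one, Matrix.cons_val]
    field_simp
    ring
  · refine ⟨![0, 0, c / h 2], ?_⟩
    rw [quadB_apply]
    simp only [Matrix.cons_val_zero, Matrix.cons_val_one, Matrix.cons_val]
    field_simp
    ring

theorem quadE_nondegenerate (F : Type) [Field F] (h2 : (2 : F) ≠ 0) : (quadE F).Nondegenerate :=
  fun h hh => quadB_surjective F h2 h hh

/-- **The example for `r = 3`.** -/
theorem example_three (p : ℕ) [Fact p.Prime] (hp : p % 4 = 3) :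
    ∃ (Γ : SimpleGraph (Fin 3 → ZMod p)) (E : BilEq (Fin 3 → ZMod p)),
      E.SizeLE (Fintype.card (Fin 3 → ZMod p)) ∧ E.Nondegenerate ∧
      (∀ x y, x ≠ y → (Γ.Adj x y ↔ E.Holds x y)) ∧ (completeBipartiteGraph (Fin 3) (Fin 3)).Free Γ ∧
      (1 / 4 : ℝ) * (Fintype.card (Fin 3 → ZMod p) : ℝ) ^ (2 - 1 / (3 : ℝ)) ≤ Nat.card Γ.edgeSet := by
  have hp' : p.Prime := Fact.out
  have hp3 : 3 ≤ p := by
    have := hp'.two_le
    omega
  have h2 : (2 : ZMod p) ≠ 0 := by
    intro h2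
    have h3 : ((2 : ℕ) : ZMod p) = 0 := by exact_mod_cast h2
    rw [ZMod.natCast_eq_zero_iff] at h3
    have := Nat.le_of_dvd (by norm_num) h3
    omega
  have hns : ¬ IsSquare (-1 : ZMod p) := by
    rw [ZMod.exists_sq_eq_neg_one_iff]
    omega
  refine ⟨quadGraph (ZMod p), quadE (ZMod p), ?_, quadE_nondegenerate _ h2, ?_, quadGraph_free _ ?_ h2, ?_⟩
  · refine ⟨?_, ?_, ?_, ?_⟩
    · exact (inferInstance : Finite (Fin 3 → ZMod p))
    · exact (inferInstance : Finite (Fin 3 → ZMod p))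
    · have : Nat.card (quadE (ZMod p)).G = Fintype.card (Fin 3 → ZMod p) :=
        Nat.card_eq_fintype_card (α := Fin 3 → ZMod p)
      rw [this]
    · have : Nat.card (quadE (ZMod p)).G' = Fintype.card (Fin 3 → ZMod p) :=
        Nat.card_eq_fintype_card (α := Fin 3 → ZMod p)
      rw [this]
  · intro x y hxy
    rw [quadE_holds]
    exact ⟨fun h => h.2, fun h => ⟨hxy, h⟩⟩
  · intro u v huv
    by_cases hv : v = 0
    · refine ⟨?_, hv⟩
      rw [hv] at huv
      have : u ^ 2 = 0 := by linear_combination huv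
      exact pow_eq_zero_iff (two_ne_zero) |>.1 this
    · exfalso
      apply hns
      refine ⟨u / v, ?_⟩
      field_simp
      linear_combination -huv
  · have := quadGraph_order (ZMod p) (by rw [ZMod.card]; exact hp3)
    rw [Nat.card_eq_fintype_card] at this
    exact_mod_cast this

end Pool.Agent.K7.H41.BE
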