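import Pool.Agent.K7.H41.BE.StructB
import Pool.Agent.K7.H41.BE.Zeros

/-!
# Graphs defined by bilinear equations whose bilinear map has many zeros
-/

set_option autoImplicit false

namespace Pool.Agent.K7.H41.BE

open Finset

open Classical in
/-- the decomposition into the classes of `u` -/
theorem cnt_classes {G G' H : Type} [AddCommGroup G] [AddCommGroup G'] [AddCommGroup H]
    (B : G →+ G' →+ H) (Γ : AddSubgroup G) (HF : Finset H) (hΓ : ∀ h ∈ Γ, ∀ y, B h y ∈ HF)
    (x₀ : G) (S : Finset G) (hS : ∀ x ∈ S, x - x₀ ∈ Γ) (T : Finset G') (u : G → H) (v : G' → H) :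
    cnt (Rel B u v) S T = ∑ a ∈ S.image u, cnt (fun x y => B x y = a + v y) (S.filter fun x => u x = a)
      (T.filter fun y => a + v y - B x₀ y ∈ HF) := by
  unfold cnt
  rw [← Nat.cast_sum]
  congr 1
  have h1 : ∀ y ∈ T, (S.filter fun x => Rel B u v x y).card =
      ∑ a ∈ S.image u, ((S.filter fun x => u x = a).filter fun x => B x y = a + v y).card := by
    intro y _
    rw [card_eq_sum_card_fiberwise (f := u) (t := S.image u)
      (fun x hx => mem_image_of_mem u (mem_filter.1 hx).1)]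
    refine sum_congr rfl fun a _ => ?_
    congr 1
    ext x
    simp only [mem_filter]
    unfold Rel
    constructor
    · rintro ⟨⟨h1, h2⟩, rfl⟩
      exact ⟨⟨h1, rfl⟩, h2⟩
    · rintro ⟨⟨h1, rfl⟩, h2⟩
      exact ⟨⟨h1, h2⟩, rfl⟩
  rw [sum_congr rfl h1, sum_comm]
  refine sum_congr rfl fun a _ => ?_
  rw [sum_filter_of_ne]
  intro y _ hy
  obtain ⟨x, hx⟩ := card_pos.1 (Nat.pos_of_ne_zero hy)
  rw [mem_filter, mem_filter] at hx
  rw [← hx.2]
  have := hΓ _ (hS x hx.1.1) y
  rwa [map_sub, AddMonoidHom.sub_apply] at this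

/-- **The relations with `u` not constant.** -/
theorem small_rel (r s M : ℕ) (hr : 1 ≤ r) (ε : ℝ) (hε : 0 < ε) : ∃ ν₀ : ℝ,
    ∀ (G G' H : Type) [AddCommGroup G] [AddCommGroup G'] [AddCommGroup H] [Fintype G] [Fintype G']
      (n ν : ℝ), ν₀ ≤ ν → ν ^ (r + 1) = n → (Fintype.card G : ℝ) ≤ n → (Fintype.card G' : ℝ) ≤ n →
      ∀ (B : G →+ G' →+ H) (Γ : AddSubgroup G) (HF : Finset H), Closed HF → HF.card ≤ M →
        (∀ h ∈ Γ, ∀ y, B h y ∈ HF) →
        ∀ (x₀ : G) (S : Finset G), (∀ x ∈ S, x - x₀ ∈ Γ) → ∀ (T : Finset G') (u : G → H) (v : G' → H),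
          KFree (r + 1) s (Rel B u v) S T → cnt (Rel B u v) S T ≤ ε * (n ^ 2 / ν) := by
  classical
  obtain ⟨lam, hlam1, hlam⟩ : ∃ lam : ℝ, 1 ≤ lam ∧ 4 * s / ε ≤ lam ^ r :=
    ⟨max 1 (4 * s / ε), le_max_left _ _, cast_mul_max hr (le_max_left _ _) (le_max_right _ _)⟩
  obtain ⟨η, hη0, hη⟩ : ∃ η : ℝ, 0 < η ∧ η * (lam * M) ≤ ε / 4 := by
    refine ⟨ε / (4 * (lam * (M + 1))), by positivity, ?_⟩
    rw [div_mul_eq_mul_div, div_le_div_iff₀ (by positivity) (by positivity)]
    have : lam * M ≤ lam * (M + 1) := by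
      refine mul_le_mul_of_nonneg_left ?_ (by linarith)
      linarith
    calc ε * (lam * M) * 4 ≤ ε * (lam * (M + 1)) * 4 := by gcongr
      _ = _ := by ring
  obtain ⟨ν₁, hν₁⟩ := small r s hr M (ε * η / 4) (by positivity)
  refine ⟨max 1 (max ν₁ (4 * (r + 1) * M / ε)), ?_⟩
  intro G G' H _ _ _ _ _ n ν hν hνn hG hG' B Γ HF hcl hL hΓ x₀ S hS T u v hfree
  have hν1 : 1 ≤ ν := (le_max_left _ _).trans hν
  have hν2 : ν₁ ≤ ν := (le_max_left _ _).trans ((le_max_right _ _).trans hν)
  have hν3 : 4 * (r + 1) * M / ε ≤ ν := (le_max_right _ _).trans ((le_max_right _ _).trans hν)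
  have hν0 : 0 < ν := by linarith
  have hn0 : 0 < n := by
    rw [← hνn]
    positivity
  have hνr : ν ^ r = n / ν := by
    rw [eq_div_iff hν0.ne', ← hνn]
    ring
  have hSn : (S.card : ℝ) ≤ n := le_trans (by exact_mod_cast card_le_univ S) hG
  have hTn : (T.card : ℝ) ≤ n := le_trans (by exact_mod_cast card_le_univ T) hG'
  set Sa : H → Finset G := fun a => S.filter fun x => u x = a with hSa
  set Ta : H → Finset G' := fun a => T.filter fun y => a + v y - B x₀ y ∈ HF with hTa
  have hfa : ∀ a, KFree (r + 1) s (fun x y => B x y = a + v y) (Sa a) (Ta a) := by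
    intro a A hA Z hZ hc hR
    refine hfree A (hA.trans (filter_subset _ _)) Z (hZ.trans (filter_subset _ _)) hc ?_
    intro x hx y hy
    have h1 := hR x hx y hy
    have h2 := (mem_filter.1 (hA hx)).2
    unfold Rel
    rw [h2]
    exact h1
  have hsumS : (∑ a ∈ S.image u, ((Sa a).card : ℝ)) = S.card := by
    rw [← Nat.cast_sum]
    congr 1
    exact (card_eq_sum_card_fiberwise (fun x hx => mem_image_of_mem u hx)).symm
  have hsumT : (∑ a ∈ S.image u, ((Ta a).card : ℝ)) ≤ M * T.card := by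
    rw [← Nat.cast_sum, ← Nat.cast_mul, Nat.cast_le]
    have h1 : (∑ a ∈ S.image u, (Ta a).card) =
        ∑ y ∈ T, ((S.image u).filter fun a => a + v y - B x₀ y ∈ HF).card := by
      rw [hTa]
      simp only [card_filter]
      rw [sum_comm]
    rw [h1, mul_comm, ← smul_eq_mul, ← sum_const]
    refine sum_le_sum fun y _ => le_trans ?_ hL
    refine card_le_card_of_injOn (fun a => a + v y - B x₀ y) ?_ ?_
    · intro a ha
      exact (mem_filter.1 ha).2
    · intro a _ b _ e
      have := sub_left_injective e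
      exact add_left_injective _ this
  rw [cnt_classes B Γ HF hΓ x₀ S hS T u v,
    ← sum_filter_add_sum_filter_not (S.image u) (fun a => η * n ≤ (Sa a).card)]
  -- the large classes
  have hbig : (∑ a ∈ (S.image u).filter (fun a => η * n ≤ (Sa a).card),
      cnt (fun x y => B x y = a + v y) (Sa a) (Ta a)) ≤ ε / 4 * (n ^ 2 / ν) := by
    have h1 : ∀ a ∈ (S.image u).filter (fun a => η * n ≤ (Sa a).card),
        cnt (fun x y => B x y = a + v y) (Sa a) (Ta a) ≤ ε * η / 4 * (n ^ 2 / ν) := by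
      intro a _
      exact hν₁ G G' H n ν hν2 hνn hG hG' B Γ HF hcl hL hΓ x₀ (Sa a)
        (fun x hx => hS x (mem_filter.1 hx).1) (Ta a) (fun y => a + v y) (hfa a)
    refine (sum_le_sum h1).trans ?_
    rw [sum_const, nsmul_eq_mul]
    have h2 : (((S.image u).filter (fun a => η * n ≤ (Sa a).card)).card : ℝ) * (η * n) ≤ n := by
      calc (((S.image u).filter (fun a => η * n ≤ (Sa a).card)).card : ℝ) * (η * n) =
            ∑ _a ∈ (S.image u).filter (fun a => η * n ≤ (Sa a).card), η * n := by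
              rw [sum_const, nsmul_eq_mul]
        _ ≤ ∑ a ∈ (S.image u).filter (fun a => η * n ≤ (Sa a).card), ((Sa a).card : ℝ) :=
            sum_le_sum fun a ha => (mem_filter.1 ha).2
        _ ≤ ∑ a ∈ S.image u, ((Sa a).card : ℝ) :=
            sum_le_sum_of_subset_of_nonneg (filter_subset _ _) fun _ _ _ => Nat.cast_nonneg _
        _ ≤ n := by rw [hsumS]; exact hSn
    have h3 : (((S.image u).filter (fun a => η * n ≤ (Sa a).card)).card : ℝ) * η ≤ 1 := by
      refine le_of_mul_le_mul_right ?_ hn0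
      rw [one_mul, mul_assoc]
      exact h2
    calc (((S.image u).filter (fun a => η * n ≤ (Sa a).card)).card : ℝ) * (ε * η / 4 * (n ^ 2 / ν)) =
          ((((S.image u).filter (fun a => η * n ≤ (Sa a).card)).card : ℝ) * η) * (ε / 4 * (n ^ 2 / ν)) := by
            ring
      _ ≤ 1 * (ε / 4 * (n ^ 2 / ν)) := mul_le_mul_of_nonneg_right h3 (by positivity)
      _ = _ := one_mul _
  -- the small classes
  have hsmall : (∑ a ∈ (S.image u).filter (fun a => ¬ η * n ≤ (Sa a).card),
      cnt (fun x y => B x y = a + v y) (Sa a) (Ta a)) ≤ 3 * (ε / 4 * (n ^ 2 / ν)) := by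
    have h1 : ∀ a ∈ (S.image u).filter (fun a => ¬ η * n ≤ (Sa a).card),
        cnt (fun x y => B x y = a + v y) (Sa a) (Ta a) ≤
          ((r + 1) + lam / ν * (η * n)) * (Ta a).card + s / (lam / ν) ^ r * (Sa a).card := by
      intro a ha
      have h2 := kst (hfa a) (lam / ν) (by positivity)
      have h3 : cnt (fun x y => B x y = a + v y) (Sa a) (Ta a) ≤ (r + 1) * (Ta a).card +
        lam / ν * (Sa a).card * (Ta a).card + s * (Sa a).card / (lam / ν) ^ r := h2
      have h4 : ((Sa a).card : ℝ) ≤ η * n := (not_le.1 (mem_filter.1 ha).2).le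
      have h5 : lam / ν * (Sa a).card * (Ta a).card ≤ lam / ν * (η * n) * (Ta a).card := by
        gcongr
      have h6 : s * (Sa a).card / (lam / ν) ^ r = s / (lam / ν) ^ r * ((Sa a).card : ℝ) := by
        rw [mul_div_right_comm]
      rw [h6] at h3
      linarith
    refine (sum_le_sum h1).trans ?_
    rw [sum_add_distrib, ← mul_sum, ← mul_sum]
    have h2 : (∑ a ∈ (S.image u).filter (fun a => ¬ η * n ≤ (Sa a).card), ((Ta a).card : ℝ)) ≤ M * n := by
      refine (sum_le_sum_of_subset_of_nonneg (filter_subset _ _) fun _ _ _ => Nat.cast_nonneg _).trans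
        (hsumT.trans ?_)
      gcongr
    have h3 : (∑ a ∈ (S.image u).filter (fun a => ¬ η * n ≤ (Sa a).card), ((Sa a).card : ℝ)) ≤ n := by
      refine (sum_le_sum_of_subset_of_nonneg (filter_subset _ _) fun _ _ _ => Nat.cast_nonneg _).trans ?_
      rw [hsumS]
      exact hSn
    have h4 : ((r + 1) + lam / ν * (η * n)) *
        (∑ a ∈ (S.image u).filter (fun a => ¬ η * n ≤ (Sa a).card), ((Ta a).card : ℝ)) ≤
        2 * (ε / 4 * (n ^ 2 / ν)) := by
      calc ((r + 1) + lam / ν * (η * n)) *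
          (∑ a ∈ (S.image u).filter (fun a => ¬ η * n ≤ (Sa a).card), ((Ta a).card : ℝ)) ≤
            ((r + 1) + lam / ν * (η * n)) * (M * n) := mul_le_mul_of_nonneg_left h2 (by positivity)
        _ = (r + 1) * M * n + (η * (lam * M)) * (n ^ 2 / ν) := by ring
        _ ≤ ε / 4 * (n ^ 2 / ν) + ε / 4 * (n ^ 2 / ν) := by
            refine add_le_add ?_ (mul_le_mul_of_nonneg_right hη (by positivity))
            have h5 : 4 * (r + 1) * M / ε ≤ n / ν := by
              refine hν3.trans ?_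
              rw [← hνr]
              calc ν = ν ^ 1 := (pow_one ν).symm
                _ ≤ _ := pow_le_pow_right₀ hν1 hr
            rw [div_le_iff₀ hε] at h5
            calc ((r : ℝ) + 1) * M * n = (4 * (r + 1) * M) * (n / 4) := by ring
              _ ≤ (n / ν * ε) * (n / 4) := mul_le_mul_of_nonneg_right h5 (by positivity)
              _ = _ := by ring
        _ = _ := by ring
    have h5 : s / (lam / ν) ^ r *
        (∑ a ∈ (S.image u).filter (fun a => ¬ η * n ≤ (Sa a).card), ((Sa a).card : ℝ)) ≤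
        ε / 4 * (n ^ 2 / ν) := by
      have h6 : (s : ℝ) ≤ ε / 4 * lam ^ r := by
        rw [div_le_iff₀ hε] at hlam
        linarith
      calc s / (lam / ν) ^ r *
          (∑ a ∈ (S.image u).filter (fun a => ¬ η * n ≤ (Sa a).card), ((Sa a).card : ℝ)) ≤
            s / (lam / ν) ^ r * n := mul_le_mul_of_nonneg_left h3 (by positivity)
        _ = s * (n ^ 2 / ν) / lam ^ r := by
            rw [div_pow, hνr]
            field_simp
        _ ≤ ε / 4 * (n ^ 2 / ν) := by
            rw [div_le_iff₀ (by positivity)]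
            calc s * (n ^ 2 / ν) ≤ (ε / 4 * lam ^ r) * (n ^ 2 / ν) := mul_le_mul_of_nonneg_right h6 (by positivity)
              _ = _ := by ring
    linarith
  have h9 : ε * (n ^ 2 / ν) = ε / 4 * (n ^ 2 / ν) + 3 * (ε / 4 * (n ^ 2 / ν)) := by ring
  rw [h9]
  exact add_le_add hbig hsmall

end Pool.Agent.K7.H41.BE
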