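import Mathlib

/-!
# Counting in families of sets without large common parts
-/

set_option autoImplicit false

namespace Pool.Agent.K7.H41.BE

open Finset

/-- the double counting behind the theorem of Kovari, Sos and Turan, for tuples without conflicts -/
theorem count_tuples {α β : Type*} [DecidableEq α] [DecidableEq β] (conf : α → Finset α) (b s : ℕ)
    (hconf : ∀ x, (conf x).card ≤ b) (X : Finset α) :
    ∀ (k : ℕ) (Y : Finset β) (D : β → Finset α), (∀ y ∈ Y, D y ⊆ X) →
      (∀ L : List α, L.length = k → L.Pairwise (fun a c => c ∉ conf a) →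
        ∀ Z ⊆ Y, (∀ y ∈ Z, ∀ x ∈ L, x ∈ D y) → Z.card ≤ s) →
      ∑ y ∈ Y, ∏ i ∈ range k, ((D y).card - b * i) ≤ s * X.card ^ k := by
  intro k
  induction k with
  | zero =>
    intro Y D _ hP
    have := hP [] rfl List.Pairwise.nil Y (Finset.Subset.refl _) (fun y _ x hx => absurd hx List.not_mem_nil)
    simpa using this
  | succ k ih =>
    intro Y D hD hP
    have h1 : ∀ x ∈ X, ∑ y ∈ Y.filter (fun y => x ∈ D y), ∏ i ∈ range k, ((D y).card - b * (i + 1)) ≤
        s * X.card ^ k := by
      intro x _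
      refine le_trans ?_ (ih (Y.filter fun y => x ∈ D y) (fun y => D y \ conf x) ?_ ?_)
      · refine sum_le_sum fun y _ => prod_le_prod' fun i _ => ?_
        have h2 := le_card_sdiff (conf x) (D y)
        have h3 := hconf x
        rw [mul_add, mul_one]
        omega
      · intro y hy
        exact sdiff_subset.trans (hD y (mem_filter.1 hy).1)
      · intro L hL hLp Z hZ hZL
        rcases Z.eq_empty_or_nonempty with rfl | ⟨y0, hy0⟩
        · simp
        · have h2 : ∀ z ∈ L, z ∉ conf x := fun z hz => (mem_sdiff.1 (hZL y0 hy0 z hz)).2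
          refine hP (x :: L) (by simp [hL]) (List.pairwise_cons.2 ⟨h2, hLp⟩) Z
            (hZ.trans (filter_subset _ _)) ?_
          intro y hy z hz
          rcases List.mem_cons.1 hz with rfl | hz
          · exact (mem_filter.1 (hZ hy)).2
          · exact (mem_sdiff.1 (hZL y hy z hz)).1
    calc ∑ y ∈ Y, ∏ i ∈ range (k + 1), ((D y).card - b * i)
        = ∑ y ∈ Y, ∑ x ∈ X, if x ∈ D y then ∏ i ∈ range k, ((D y).card - b * (i + 1)) else 0 := by
          refine sum_congr rfl fun y hy => ?_
          rw [prod_range_succ', mul_zero, Nat.sub_zero, ← sum_filter, sum_const, smul_eq_mul, mul_comm]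
          congr 1
          rw [filter_mem_eq_inter, inter_eq_right.2 (hD y hy)]
      _ = ∑ x ∈ X, ∑ y ∈ Y.filter (fun y => x ∈ D y), ∏ i ∈ range k, ((D y).card - b * (i + 1)) := by
          rw [sum_comm]
          refine sum_congr rfl fun x _ => ?_
          rw [sum_filter]
      _ ≤ ∑ _x ∈ X, s * X.card ^ k := sum_le_sum h1
      _ = s * X.card ^ (k + 1) := by
          rw [sum_const, smul_eq_mul, pow_succ]
          ring

/-- an elementary inequality -/
theorem young (k : ℕ) (t d : ℝ) (ht : 0 < t) (hd : 0 ≤ d) : d ≤ t + d ^ (k + 1) / t ^ k := by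
  rcases le_total d t with h | h
  · have : 0 ≤ d ^ (k + 1) / t ^ k := by positivity
    linarith
  · have h1 : d ≤ d ^ (k + 1) / t ^ k := by
      rw [le_div_iff₀ (by positivity), pow_succ, mul_comm]
      exact mul_le_mul_of_nonneg_right (pow_le_pow_left₀ ht.le h k) hd
    linarith

/-- the same for truncated products -/
theorem young_prod (k b d : ℕ) (t : ℝ) (ht : 0 < t) :
    (d : ℝ) ≤ b * (k + 1) + t + ((∏ i ∈ range (k + 1), (d - b * i) : ℕ) : ℝ) / t ^ k := by
  have h1 : (d - b * (k + 1)) ^ (k + 1) ≤ ∏ i ∈ range (k + 1), (d - b * i) := by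
    rw [← card_range (k + 1), ← prod_const, card_range]
    refine prod_le_prod' fun i hi => ?_
    have : b * i ≤ b * (k + 1) := Nat.mul_le_mul_left b (mem_range.1 hi).le
    omega
  have h2 := young k t ((d - b * (k + 1) : ℕ) : ℝ) ht (Nat.cast_nonneg _)
  have h3 : (d : ℝ) ≤ b * (k + 1) + ((d - b * (k + 1) : ℕ) : ℝ) := by
    have : d ≤ b * (k + 1) + (d - b * (k + 1)) := by omega
    exact_mod_cast this
  have h4 : (((d - b * (k + 1) : ℕ) : ℝ)) ^ (k + 1) / t ^ k ≤
      ((∏ i ∈ range (k + 1), (d - b * i) : ℕ) : ℝ) / t ^ k := by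
    refine div_le_div_of_nonneg_right ?_ (by positivity)
    exact_mod_cast h1
  linarith

/-- **The weighted form of the count.**  If no `k + 1` elements without conflicts are together in more than `s`
sets, then the sizes of the sets satisfy the bound below, for every `τ > 0`. -/
theorem count_sizes {α β : Type*} [DecidableEq α] [DecidableEq β] (conf : α → Finset α) (b s : ℕ)
    (hconf : ∀ x, (conf x).card ≤ b) (X : Finset α) (k : ℕ) (Y : Finset β) (D : β → Finset α)
    (hD : ∀ y ∈ Y, D y ⊆ X)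
    (hP : ∀ L : List α, L.length = k + 1 → L.Pairwise (fun a c => c ∉ conf a) →
        ∀ Z ⊆ Y, (∀ y ∈ Z, ∀ x ∈ L, x ∈ D y) → Z.card ≤ s) (τ : ℝ) (hτ : 0 < τ) :
    ((∑ y ∈ Y, (D y).card : ℕ) : ℝ) ≤
      b * (k + 1) * Y.card + τ * X.card * Y.card + s * X.card / τ ^ k := by
  rcases X.eq_empty_or_nonempty with rfl | hX
  · have : ∀ y ∈ Y, (D y).card = 0 := fun y hy => by
      rw [card_eq_zero, ← subset_empty]
      exact hD y hy
    rw [sum_congr rfl this]
    simp
    positivity
  · have hX' : (0 : ℝ) < X.card := by exact_mod_cast card_pos.2 hX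
    have h1 := count_tuples conf b s hconf X (k + 1) Y D hD hP
    have h2 : ((∑ y ∈ Y, (D y).card : ℕ) : ℝ) ≤ ∑ y ∈ Y, ((b : ℝ) * (k + 1) + τ * X.card +
        ((∏ i ∈ range (k + 1), ((D y).card - b * i) : ℕ) : ℝ) / (τ * X.card) ^ k) := by
      rw [Nat.cast_sum]
      exact sum_le_sum fun y _ => young_prod k b _ (τ * X.card) (by positivity)
    refine h2.trans ?_
    rw [sum_add_distrib, sum_const, nsmul_eq_mul, ← sum_div]
    have h3 : (∑ y ∈ Y, ((∏ i ∈ range (k + 1), ((D y).card - b * i) : ℕ) : ℝ)) ≤ s * (X.card : ℝ) ^ (k + 1) := by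
      exact_mod_cast h1
    have h4 : (∑ y ∈ Y, ((∏ i ∈ range (k + 1), ((D y).card - b * i) : ℕ) : ℝ)) / (τ * X.card) ^ k ≤
        s * X.card / τ ^ k := by
      rw [div_le_div_iff₀ (by positivity) (by positivity)]
      calc _ ≤ s * (X.card : ℝ) ^ (k + 1) * τ ^ k := mul_le_mul_of_nonneg_right h3 (by positivity)
        _ = s * X.card * (τ * X.card) ^ k := by ring
    have h5 : (Y.card : ℝ) * ((b : ℝ) * (k + 1) + τ * X.card) =
        b * (k + 1) * Y.card + τ * X.card * Y.card := by ring
    rw [h5]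
    linarith

/-- no `r` elements of `S` have more than `s` common neighbours in `T` -/
def KFree {α β : Type*} (r s : ℕ) (R : α → β → Prop) (S : Finset α) (T : Finset β) : Prop :=
  ∀ A ⊆ S, ∀ Z ⊆ T, A.card = r → (∀ x ∈ A, ∀ y ∈ Z, R x y) → Z.card ≤ s

theorem KFree.mono {α β : Type*} {r s : ℕ} {R : α → β → Prop} {S S' : Finset α} {T T' : Finset β}
    (h : KFree r s R S T) (hS : S' ⊆ S) (hT : T' ⊆ T) : KFree r s R S' T' :=
  fun A hA Z hZ hr hR => h A (hA.trans hS) Z (hZ.trans hT) hr hR

/-- **The theorem of Kovari, Sos and Turan**, with a parameter. -/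
theorem kst {α β : Type*} {r s : ℕ} {R : α → β → Prop} {S : Finset α} {T : Finset β}
    (h : KFree (r + 1) s R S T) (τ : ℝ) (hτ : 0 < τ) :
    open Classical in
    ((∑ y ∈ T, (S.filter fun x => R x y).card : ℕ) : ℝ) ≤
      (r + 1) * T.card + τ * S.card * T.card + s * S.card / τ ^ r := by
  classical
  have := count_sizes (fun x : α => {x}) 1 s (fun x => by simp) S r T (fun y => S.filter fun x => R x y)
    (fun y _ => filter_subset _ _) ?_ τ hτ
  · simpa using this
  · intro L hL hLp Z hZ hZL
    rcases Z.eq_empty_or_nonempty with rfl | ⟨y0, hy0⟩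
    · simp
    have hnd : L.Nodup := by
      refine hLp.imp ?_
      intro a b hab e
      exact hab (by simp [e])
    refine h L.toFinset (fun x hx => (mem_filter.1 (hZL y0 hy0 x (List.mem_toFinset.1 hx))).1) Z hZ
      (by rw [List.toFinset_card_of_nodup hnd, hL]) ?_
    intro x hx y hy
    exact (mem_filter.1 (hZL y hy x (List.mem_toFinset.1 hx))).2

end Pool.Agent.K7.H41.BE
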