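import Pool.Agent.K7.H41.BE.Assemble

/-!
# Graphs defined by bilinear equations have few edges
-/

set_option autoImplicit false

namespace Pool.Agent.K7.H41.BE

open Finset

theorem cnt_congr {α β : Type} {R R' : α → β → Prop} (h : ∀ x y, R x y ↔ R' x y) (S : Finset α)
    (T : Finset β) : cnt R S T = cnt R' S T := by
  have : R = R' := by
    funext x y
    exact propext (h x y)
  rw [this]

/-- **The relations whose bilinear map has many zeros.** -/
theorem bil_small (r s : ℕ) (hr : 1 ≤ r) (p : ℝ) (hp : 0 < p) (hp' : p ≤ 1 / 2) (ε : ℝ) (hε : 0 < ε) :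
    ∃ ν₀ : ℝ, ∀ (G G' H : Type) [AddCommGroup G] [AddCommGroup G'] [AddCommGroup H] [Fintype G] [Fintype G']
      (B : G →+ G' →+ H) (u : G → H) (v : G' → H) (n ν : ℝ), (Fintype.card G : ℝ) ≤ n →
      (Fintype.card G' : ℝ) ≤ n → ν₀ ≤ ν → ν ^ (r + 1) = n → KFree (r + 1) s (Rel B u v) univ univ →
      2 * p * n ^ 2 ≤ zeros B → (pairs (Rel B u v) : ℝ) ≤ ε * (n ^ 2 / ν) := by
  classical
  obtain ⟨M, δ, hδ, hstr⟩ := structure_zeros p hp hp'
  obtain ⟨ν₀, hν₀⟩ := small_rel r s M hr (ε * δ ^ 2) (by positivity)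
  refine ⟨max 1 ν₀, ?_⟩
  intro G G' H _ _ _ _ _ B u v n ν hn hn' hν hνn hfree hz
  have hν1 : 1 ≤ ν := (le_max_left _ _).trans hν
  have hν2 : ν₀ ≤ ν := (le_max_right _ _).trans hν
  have hn0 : 0 < n := by
    rw [← hνn]
    positivity
  have hG0 : (0 : ℝ) < Fintype.card G := by exact_mod_cast Fintype.card_pos
  have hG0' : (0 : ℝ) < Fintype.card G' := by exact_mod_cast Fintype.card_pos
  obtain ⟨K, K', HF, hcl, hHF, hval, hK, hK'⟩ := hstr G G' H B (by
    refine le_trans ?_ hz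
    rw [sq]
    gcongr)
  have : Fintype K' := Fintype.ofFinite _
  have hcK' : (Fintype.card K' : ℝ) ≤ n := by
    refine le_trans ?_ hn'
    exact_mod_cast Fintype.card_le_of_injective (fun l : K' => (l : G')) Subtype.val_injective
  -- the number of pairs in the classes
  have hcell : ∀ (y₀ : G') (x₁ : G), cnt (fun (x : G) (l : K') => Rel B u v x (y₀ + l))
      (univ.filter fun x => x - x₁ ∈ K) univ ≤ ε * δ ^ 2 * (n ^ 2 / ν) := by
    intro y₀ x₁
    have hrel : ∀ (x : G) (l : K'), Rel B u v x (y₀ + l) ↔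
        Rel (flipR B.flip K') (fun x => u x - B x y₀) (fun l : K' => v (y₀ + l)) x l := by
      intro x l
      unfold Rel
      have e1 : flipR B.flip K' x l = B x l := rfl
      rw [e1, map_add]
      constructor
      · intro e
        rw [sub_add_eq_add_sub, ← e, add_sub_cancel_left]
      · intro e
        have e2 : B x (l : G') = u x - B x y₀ + v (y₀ + l) := e
        rw [e2]
        abel
    rw [cnt_congr hrel]
    refine hν₀ G K' H n ν hν2 hνn hn hcK' (flipR B.flip K') K HF hcl hHF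
      (fun h hh l => hval h hh l l.2) x₁ _ (fun x hx => (mem_filter.1 hx).2) univ _ _ ?_
    intro A hA Z hZ hc hR
    rw [← card_map (⟨fun l : K' => y₀ + (l : G'), fun a b e => Subtype.ext (add_left_cancel e)⟩ : K' ↪ G')]
    refine hfree A (subset_univ _) _ (subset_univ _) hc ?_
    intro x hx y hy
    obtain ⟨l, hl, rfl⟩ := mem_map.1 hy
    exact (hrel x l).2 (hR x hx l hl)
  have hrow : ∀ y₀ : G', (sz K : ℝ) * cnt (fun (x : G) (l : K') => Rel B u v x (y₀ + l)) univ univ ≤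
      Fintype.card G * (ε * δ ^ 2 * (n ^ 2 / ν)) := by
    intro y₀
    have h1 := cosets_sum (⊤ : AddSubgroup G) K le_top (fun (x : G) (l : K') => Rel B u v x (y₀ + l)) 0
      univ (fun x _ => AddSubgroup.mem_top _) univ
    have h2 : (sz K : ℝ) = ((univ.filter fun h : G => h ∈ K).card : ℝ) := rfl
    rw [h2, h1]
    refine (sum_le_sum fun x₁ _ => hcell y₀ x₁).trans ?_
    rw [sum_const, nsmul_eq_mul]
    refine mul_le_mul_of_nonneg_right ?_ (by positivity)
    exact_mod_cast card_le_univ _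
  have hall : (∑ y₀ : G', cnt (fun (x : G) (l : K') => Rel B u v x (y₀ + l)) univ univ) =
      sz K' * (pairs (Rel B u v) : ℝ) := by
    have h1 : (∑ y₀ : G', cnt (fun (x : G) (l : K') => Rel B u v x (y₀ + l)) univ univ) =
        ∑ y₀ : G', ∑ l : K', ((nb (Rel B u v) (y₀ + l)).card : ℝ) := by
      refine sum_congr rfl fun y₀ _ => ?_
      unfold cnt nb
      push_cast
      rfl
    rw [h1, sum_comm]
    have h2 : ∀ l : K', (∑ y₀ : G', ((nb (Rel B u v) (y₀ + l)).card : ℝ)) = pairs (Rel B u v) := by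
      intro l
      unfold pairs
      push_cast
      exact Fintype.sum_equiv (Equiv.addRight (l : G')) _ _ fun y => rfl
    rw [sum_congr rfl fun l _ => h2 l, sum_const, nsmul_eq_mul, card_univ, card_sub]
  have h1 := sum_le_sum fun (y₀ : G') (_ : y₀ ∈ univ) => hrow y₀
  rw [← mul_sum, hall, sum_const, nsmul_eq_mul, card_univ] at h1
  have h2 : (δ * Fintype.card G) * ((δ * Fintype.card G') * (pairs (Rel B u v) : ℝ)) ≤
      sz K * (sz K' * (pairs (Rel B u v) : ℝ)) := by
    refine mul_le_mul hK (mul_le_mul_of_nonneg_right hK' (Nat.cast_nonneg _)) (by positivity)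
      (Nat.cast_nonneg _)
  have h3 : (δ ^ 2 * (Fintype.card G * Fintype.card G')) * (pairs (Rel B u v) : ℝ) ≤
      (δ ^ 2 * (Fintype.card G * Fintype.card G')) * (ε * (n ^ 2 / ν)) := by
    calc (δ ^ 2 * (Fintype.card G * Fintype.card G')) * (pairs (Rel B u v) : ℝ) =
          (δ * Fintype.card G) * ((δ * Fintype.card G') * (pairs (Rel B u v) : ℝ)) := by ring
      _ ≤ _ := h2.trans h1
      _ = _ := by ring
  exact le_of_mul_le_mul_left h3 (by positivity)

/-- **The theorem for relations.** -/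
theorem few_pairs (r s : ℕ) (hr : 4 ≤ r) (c : ℝ) (hc : 0 < c) : ∃ ν₀ : ℝ,
    ∀ (G G' H : Type) [AddCommGroup G] [AddCommGroup G'] [AddCommGroup H] [Fintype G] [Fintype G']
      (B : G →+ G' →+ H) (u : G → H) (v : G' → H) (n ν : ℝ), (Fintype.card G : ℝ) ≤ n →
      (Fintype.card G' : ℝ) ≤ n → ν₀ ≤ ν → ν ^ r = n → KFree r s (Rel B u v) univ univ →
      (pairs (Rel B u v) : ℝ) < c * (n ^ 2 / ν) := by
  obtain ⟨c₁, hc₁, ν₁, hν₁⟩ : ∃ c₁ : ℝ, 0 < c₁ ∧ ∃ ν₀ : ℝ,
      ∀ (G G' H : Type) [AddCommGroup G] [AddCommGroup G'] [AddCommGroup H] [Fintype G] [Fintype G']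
        (B : G →+ G' →+ H) (u : G → H) (v : G' → H) (n ν : ℝ), (Fintype.card G : ℝ) ≤ n →
        (Fintype.card G' : ℝ) ≤ n → ν₀ ≤ ν → ν ^ r = n → KFree r s (Rel B u v) univ univ →
        c * n ^ 2 / ν ≤ pairs (Rel B u v) → c₁ * n ^ 2 ≤ zeros B := by
    rcases Nat.even_or_odd' r with ⟨j, hj | hj⟩
    · obtain ⟨k, rfl⟩ : ∃ k, j = k + 1 := ⟨j - 1, by omega⟩
      subst hj
      exact zeros_even k s (by omega) c hc
    · obtain ⟨k, rfl⟩ : ∃ k, j = k + 1 := ⟨j - 1, by omega⟩
      subst hj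
      exact zeros_odd k s (by omega) c hc
  obtain ⟨q, rfl⟩ : ∃ q, r = q + 1 := ⟨r - 1, by omega⟩
  obtain ⟨ν₂, hν₂⟩ := bil_small q s (by omega) (min (c₁ / 2) (1 / 2)) (by positivity) (min_le_right _ _)
    (c / 2) (by positivity)
  refine ⟨max 1 (max ν₁ ν₂), ?_⟩
  intro G G' H _ _ _ _ _ B u v n ν hn hn' hν hνn hfree
  have hν1 : 1 ≤ ν := (le_max_left _ _).trans hν
  by_contra hcon
  push Not at hcon
  have hn0 : 0 < n := by
    rw [← hνn]
    positivity
  have h1 := hν₁ G G' H B u v n ν hn hn' ((le_max_left _ _).trans ((le_max_right _ _).trans hν)) hνn hfree (by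
    rw [mul_div_assoc]
    exact hcon)
  have h2 := hν₂ G G' H B u v n ν hn hn' ((le_max_right _ _).trans ((le_max_right _ _).trans hν)) hνn hfree (by
    refine le_trans ?_ h1
    refine mul_le_mul_of_nonneg_right ?_ (by positivity)
    have := min_le_left (c₁ / 2) (1 / 2 : ℝ)
    linarith)
  have h3 : 0 < c / 2 * (n ^ 2 / ν) := by positivity
  have h4 : c * (n ^ 2 / ν) = c / 2 * (n ^ 2 / ν) + c / 2 * (n ^ 2 / ν) := by ring
  linarith

end Pool.Agent.K7.H41.BE
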