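import Pool.Agent.K7.H41.BE.Onto
import Pool.Agent.TH17.LD.Sharp

/-!
# Graphs defined by bilinear equations
-/

set_option autoImplicit false

namespace Pool.Agent.K7.H41.BE

open Finset

/-- A bilinear equation `B (a x) (b y) = u x + v y` for two vertices `x`, `y`: the vertices are mapped injectively
to abelian groups `G`, `G'`, the map `B` is biadditive with values in an abelian group `H`, and `u`, `v` are
arbitrary functions. -/
structure BilEq (V : Type) where
  /-- the first group -/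
  G : Type
  /-- the second group -/
  G' : Type
  /-- the group of the values -/
  H : Type
  [instG : AddCommGroup G]
  [instG' : AddCommGroup G']
  [instH : AddCommGroup H]
  /-- the first embedding -/
  a : V → G
  /-- the second embedding -/
  b : V → G'
  /-- the biadditive map -/
  B : G →+ G' →+ H
  /-- the first function -/
  u : V → H
  /-- the second function -/
  v : V → H
  inj_a : Function.Injective a
  inj_b : Function.Injective b

attribute [instance] BilEq.instG BilEq.instG' BilEq.instH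

namespace BilEq

variable {V : Type}

/-- `x` and `y` satisfy the equation -/
def Holds (E : BilEq V) (x y : V) : Prop := E.B (E.a x) (E.b y) = E.u x + E.v y

/-- the two groups are finite and have at most `n` elements -/
def SizeLE (E : BilEq V) (n : ℝ) : Prop :=
  Finite E.G ∧ Finite E.G' ∧ (Nat.card E.G : ℝ) ≤ n ∧ (Nat.card E.G' : ℝ) ≤ n

/-- all maps `B(h, ·)`, `h ≠ 0`, are onto -/
def Nondegenerate (E : BilEq V) : Prop := ∀ h : E.G, h ≠ 0 → Function.Surjective (E.B h)

end BilEq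

/-- a copy of `K_{r,s}` -/
theorem not_free {V : Type} (Γ : SimpleGraph V) (A Z : Finset V) (hAZ : ∀ x ∈ A, ∀ y ∈ Z, Γ.Adj x y) :
    ¬ (completeBipartiteGraph (Fin A.card) (Fin Z.card)).Free Γ := by
  intro hfree
  refine hfree ⟨⟨⟨Sum.elim (fun i => (A.equivFin.symm i : V)) (fun i => (Z.equivFin.symm i : V)), ?_⟩, ?_⟩⟩
  · have key : ∀ (i : Fin A.card) (j : Fin Z.card), Γ.Adj (A.equivFin.symm i : V) (Z.equivFin.symm j : V) :=
      fun i j => hAZ _ (A.equivFin.symm i).2 _ (Z.equivFin.symm j).2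
    rintro (i | i) (j | j) hij
    · simp at hij
    · exact key i j
    · exact (key j i).symm
    · simp at hij
  · rintro (i | i) (j | j) hij
    · exact congrArg _ (A.equivFin.symm.injective (Subtype.ext hij))
    · exact absurd hij (hAZ _ (A.equivFin.symm i).2 _ (Z.equivFin.symm j).2).ne
    · exact absurd hij.symm (hAZ _ (A.equivFin.symm j).2 _ (Z.equivFin.symm i).2).ne
    · exact congrArg _ (Z.equivFin.symm.injective (Subtype.ext hij))

/-- the relation without the loops has no large complete bipartite parts -/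
theorem KFree_of_free {V : Type} (Γ : SimpleGraph V) (r s : ℕ)
    (hfree : (completeBipartiteGraph (Fin r) (Fin s)).Free Γ) (R : V → V → Prop)
    (hR : ∀ x y, x ≠ y → R x y → Γ.Adj x y) (S T : Finset V) : KFree r (r + s) R S T := by
  classical
  intro A _ Z _ hc h
  by_contra hcon
  push Not at hcon
  have h1 : s ≤ (Z \ A).card := by
    have := le_card_sdiff A Z
    omega
  obtain ⟨Z', hZ', hZs⟩ := exists_subset_card_eq h1
  refine not_free Γ A Z' ?_ (by rwa [hc, hZs])
  intro x hx y hy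
  have h2 := mem_sdiff.1 (hZ' hy)
  exact hR x y (fun e => h2.2 (e ▸ hx)) (h x hx y h2.1)

section

variable {V G G' H : Type} [Fintype V] [AddCommGroup G] [AddCommGroup G'] [AddCommGroup H]

omit [Fintype V] in
/-- the relation on the groups -/
theorem rel_extend (B : G →+ G' →+ H) (a : V → G) (b : V → G') (u v : V → H) (ha : Function.Injective a)
    (hb : Function.Injective b) (x y : V) :
    Rel B (Function.extend a u 0) (Function.extend b v 0) (a x) (b y) ↔ B (a x) (b y) = u x + v y := by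
  unfold Rel
  rw [ha.extend_apply, hb.extend_apply]

open Classical in
theorem cnt_extend (B : G →+ G' →+ H) (a : V → G) (b : V → G') (u v : V → H) (ha : Function.Injective a)
    (hb : Function.Injective b) :
    cnt (Rel B (Function.extend a u 0) (Function.extend b v 0)) (univ.image a) (univ.image b) =
      cnt (fun x y => B (a x) (b y) = u x + v y) univ univ := by
  unfold cnt
  congr 1
  rw [sum_image hb.injOn]
  refine sum_congr rfl fun y _ => ?_
  rw [filter_image, card_image_of_injective _ ha]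
  congr 1
  refine filter_congr fun x _ => ?_
  exact rel_extend B a b u v ha hb x y

open Classical in
theorem KFree_extend (B : G →+ G' →+ H) (a : V → G) (b : V → G') (u v : V → H) (ha : Function.Injective a)
    (hb : Function.Injective b) (r s : ℕ) (h : KFree r s (fun x y => B (a x) (b y) = u x + v y) univ univ) :
    KFree r s (Rel B (Function.extend a u 0) (Function.extend b v 0)) (univ.image a) (univ.image b) := by
  intro A hA Z hZ hc hR
  obtain ⟨A', -, rfl⟩ := subset_image_iff.1 hA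
  obtain ⟨Z', -, rfl⟩ := subset_image_iff.1 hZ
  rw [card_image_of_injective _ ha] at hc
  rw [card_image_of_injective _ hb]
  refine h A' (subset_univ _) Z' (subset_univ _) hc ?_
  intro x hx y hy
  exact (rel_extend B a b u v ha hb x y).1 (hR (a x) (mem_image_of_mem a hx) (b y) (mem_image_of_mem b hy))

end

open Classical in
/-- the number of edges -/
theorem edges_le {V : Type} [Fintype V] (Γ : SimpleGraph V) {m : ℕ} (R : Fin m → V → V → Prop)
    (hR : ∀ x y, Γ.Adj x y → ∃ i, R i x y) (X : ℝ) (hX : ∀ i, cnt (R i) univ univ ≤ X) :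
    (Nat.card Γ.edgeSet : ℝ) ≤ m * X := by
  have h1 : 2 * (Nat.card Γ.edgeSet) = ∑ y, Γ.degree y := by
    rw [Γ.sum_degrees_eq_twice_card_edges, SimpleGraph.edgeFinset_card, Nat.card_eq_fintype_card]
  have h2 : ∀ y, Γ.degree y ≤ ∑ i, (univ.filter fun x => R i x y).card := by
    intro y
    rw [← SimpleGraph.card_neighborFinset_eq_degree]
    refine le_trans (card_le_card ?_) (card_biUnion_le (s := univ) (t := fun i => univ.filter fun x => R i x y))
    intro x hx
    rw [SimpleGraph.mem_neighborFinset] at hx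
    obtain ⟨i, hi⟩ := hR x y hx.symm
    exact mem_biUnion.2 ⟨i, mem_univ _, mem_filter.2 ⟨mem_univ _, hi⟩⟩
  have h3 : (Nat.card Γ.edgeSet) ≤ ∑ i, ∑ y : V, (univ.filter fun x => R i x y).card := by
    rw [sum_comm]
    have := sum_le_sum fun y (_ : y ∈ univ) => h2 y
    omega
  calc (Nat.card Γ.edgeSet : ℝ) ≤ ((∑ i, ∑ y : V, (univ.filter fun x => R i x y).card : ℕ) : ℝ) := by
        exact_mod_cast h3
    _ = ∑ i, cnt (R i) univ univ := by
        unfold cnt
        push_cast
        rfl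
    _ ≤ ∑ _i : Fin m, X := sum_le_sum fun i _ => hX i
    _ = m * X := by rw [sum_const, nsmul_eq_mul, card_univ, Fintype.card_fin]

/-- **No graph of extremal order is given by bilinear equations, `r ≥ 4`.** -/
theorem graph_few (r s m : ℕ) (C c : ℝ) (hr : 4 ≤ r) (hc : 0 < c) : ∃ n₀ : ℕ,
    ∀ (V : Type) [Fintype V] (Γ : SimpleGraph V) (E : Fin m → BilEq V), n₀ ≤ Fintype.card V →
      (∀ i, (E i).SizeLE (C * Fintype.card V)) →
      (∀ x y, x ≠ y → (Γ.Adj x y ↔ ∃ i, (E i).Holds x y)) →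
      (completeBipartiteGraph (Fin r) (Fin s)).Free Γ →
      (Nat.card Γ.edgeSet : ℝ) < c * (Fintype.card V : ℝ) ^ (2 - 1 / (r : ℝ)) := by
  classical
  obtain ⟨C₁, hC₁, hCC⟩ : ∃ C₁ : ℝ, 1 ≤ C₁ ∧ C ≤ C₁ := ⟨max 1 C, le_max_left _ _, le_max_right _ _⟩
  have hC0 : 0 < C₁ := by linarith
  obtain ⟨ν₀, hν₀⟩ := few_cnt r (r + s) hr (c / ((m + 1) * C₁ ^ (2 - 1 / (r : ℝ)))) (by positivity)
  refine ⟨⌈(max 1 ν₀) ^ r⌉₊, ?_⟩
  intro V _ Γ E hV hsize hadj hfree
  obtain ⟨N, hN⟩ : ∃ N : ℝ, (Fintype.card V : ℝ) = N := ⟨_, rfl⟩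
  have hN1 : (max 1 ν₀) ^ r ≤ N := by
    rw [← hN]
    exact (Nat.le_ceil _).trans (by exact_mod_cast hV)
  have hN1' : 1 ≤ N := (one_le_pow₀ (le_max_left _ _)).trans hN1
  rw [hN] at hsize ⊢
  have hN0 : 0 < N := by linarith
  have hr0 : (r : ℝ) ≠ 0 := by
    have : r ≠ 0 := by omega
    exact_mod_cast this
  set n : ℝ := C₁ * N with hn
  have hn0 : 0 < n := by positivity
  have hNn : N ≤ n := by
    rw [hn]
    nlinarith
  set ν : ℝ := n ^ (1 / (r : ℝ)) with hν
  have hνn : ν ^ r = n := by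
    rw [hν, ← Real.rpow_natCast, ← Real.rpow_mul hn0.le, one_div, inv_mul_cancel₀ hr0, Real.rpow_one]
  have hν1 : max 1 ν₀ ≤ ν := by
    have h1 : (max 1 ν₀) ^ r ≤ ν ^ r := by
      rw [hνn]
      exact hN1.trans hNn
    exact le_of_pow_le_pow_left₀ (by omega) (by positivity) h1
  have hν0 : 0 < ν := by positivity
  have hpow : n ^ 2 / ν = C₁ ^ (2 - 1 / (r : ℝ)) * N ^ (2 - 1 / (r : ℝ)) := by
    rw [← Real.mul_rpow hC0.le hN0.le, ← hn, Real.rpow_sub hn0, hν]
    norm_num
  have hcnt : ∀ i, cnt (E i).Holds univ univ ≤ c / (m + 1) * N ^ (2 - 1 / (r : ℝ)) := by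
    intro i
    obtain ⟨hf, hf', hG, hG'⟩ := hsize i
    have : Fintype (E i).G := Fintype.ofFinite _
    have : Fintype (E i).G' := Fintype.ofFinite _
    rw [Nat.card_eq_fintype_card] at hG hG'
    have hCN : C * N ≤ n := by
      rw [hn]
      exact mul_le_mul_of_nonneg_right hCC hN0.le
    have hK := KFree_of_free Γ r s hfree (E i).Holds (fun x y hxy h => (hadj x y hxy).2 ⟨i, h⟩) univ univ
    have h1 := hν₀ (E i).G (E i).G' (E i).H (E i).B (Function.extend (E i).a (E i).u 0)
      (Function.extend (E i).b (E i).v 0) n ν (univ.image (E i).a) (univ.image (E i).b) (hG.trans hCN)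
      (hG'.trans hCN) ((le_max_right _ _).trans hν1) hνn
      (KFree_extend (E i).B (E i).a (E i).b (E i).u (E i).v (E i).inj_a (E i).inj_b r (r + s) hK)
    rw [cnt_extend (E i).B (E i).a (E i).b (E i).u (E i).v (E i).inj_a (E i).inj_b, hpow] at h1
    refine h1.le.trans (le_of_eq ?_)
    have : C₁ ^ (2 - 1 / (r : ℝ)) ≠ 0 := by positivity
    field_simp
  have h1 := edges_le Γ (fun i => (E i).Holds) (fun x y h => (hadj x y h.ne).1 h) _ hcnt
  refine lt_of_le_of_lt h1 ?_
  have h2 : (0 : ℝ) < c / (m + 1) * N ^ (2 - 1 / (r : ℝ)) := by positivity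
  have h3 : c * N ^ (2 - 1 / (r : ℝ)) = (m + 1) * (c / (m + 1) * N ^ (2 - 1 / (r : ℝ))) := by
    field_simp
  rw [h3]
  linarith

theorem KFree_mono_r {α β : Type} {r r' s : ℕ} (hr : r ≤ r') {R : α → β → Prop} {S : Finset α} {T : Finset β}
    (h : KFree r s R S T) : KFree r' s R S T := by
  intro A hA Z hZ hc hR
  obtain ⟨A', hA', hc'⟩ := exists_subset_card_eq (hr.trans hc.ge)
  exact h A' (hA'.trans hA) Z hZ hc' fun x hx y hy => hR x (hA' hx) y hy

/-- **Nondegenerate bilinear equations.** -/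
theorem graph_onto (r s k m : ℕ) (C : ℝ) (hk : 1 ≤ k) (hr : r ≤ 2 * k) : ∃ K : ℝ, 0 < K ∧
    ∀ (V : Type) [Fintype V] (Γ : SimpleGraph V) (E : Fin m → BilEq V),
      (∀ i, (E i).SizeLE (C * Fintype.card V)) → (∀ i, (E i).Nondegenerate) →
      (∀ x y, x ≠ y → (Γ.Adj x y ↔ ∃ i, (E i).Holds x y)) →
      (completeBipartiteGraph (Fin r) (Fin s)).Free Γ →
      (Nat.card Γ.edgeSet : ℝ) ≤ K * (Fintype.card V : ℝ) ^ (2 - 1 / ((k : ℝ) + 1)) := by
  classical
  obtain ⟨k, rfl⟩ : ∃ j, k = j + 1 := ⟨k - 1, by omega⟩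
  obtain ⟨C₁, hC₁, hCC⟩ : ∃ C₁ : ℝ, 1 ≤ C₁ ∧ C ≤ C₁ := ⟨max 1 C, le_max_left _ _, le_max_right _ _⟩
  have hC0 : 0 < C₁ := by linarith
  obtain ⟨K, hK0, hK⟩ := onto_bound k (r + s) C₁ hC₁
  refine ⟨(m + 1) * K, by positivity, ?_⟩
  intro V _ Γ E hsize hnd hadj hfree
  obtain ⟨N, hN⟩ : ∃ N : ℝ, (Fintype.card V : ℝ) = N := ⟨_, rfl⟩
  rw [hN] at hsize ⊢
  rcases isEmpty_or_nonempty V with hV | hV
  · have h0 : Nat.card Γ.edgeSet = 0 := by
      have : IsEmpty Γ.edgeSet := by
        refine ⟨fun e => ?_⟩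
        obtain ⟨e, he⟩ := e
        induction e using Sym2.ind with
        | _ x y => exact hV.false x
      exact Nat.card_of_isEmpty
    rw [h0]
    push_cast
    have : (0 : ℝ) ≤ N := by
      rw [← hN]
      exact Nat.cast_nonneg _
    positivity
  have hN1 : 1 ≤ N := by
    rw [← hN]
    exact_mod_cast Fintype.card_pos
  have hN0 : 0 < N := by linarith
  have hk0 : ((k + 2 : ℕ) : ℝ) ≠ 0 := by positivity
  set μ : ℝ := N ^ (1 / ((k + 2 : ℕ) : ℝ)) with hμ
  have hμN : μ ^ (k + 2) = N := by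
    rw [hμ, ← Real.rpow_natCast, ← Real.rpow_mul hN0.le, one_div, inv_mul_cancel₀ hk0, Real.rpow_one]
  have hμ1 : 1 ≤ μ := Real.one_le_rpow hN1 (by positivity)
  have hpow : N ^ 2 / μ = N ^ (2 - 1 / (((k + 1 : ℕ) : ℝ) + 1)) := by
    rw [Real.rpow_sub hN0, hμ]
    have : ((k + 2 : ℕ) : ℝ) = ((k + 1 : ℕ) : ℝ) + 1 := by
      push_cast
      ring
    rw [this]
    norm_num
  have hcnt : ∀ i, cnt (E i).Holds univ univ ≤ K * N ^ (2 - 1 / (((k + 1 : ℕ) : ℝ) + 1)) := by
    intro i
    obtain ⟨hf, hf', hG, hG'⟩ := hsize i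
    have : Fintype (E i).G := Fintype.ofFinite _
    have : Fintype (E i).G' := Fintype.ofFinite _
    rw [Nat.card_eq_fintype_card] at hG hG'
    have hCN : C * N ≤ C₁ * N := mul_le_mul_of_nonneg_right hCC hN0.le
    have hK' := KFree_mono_r hr (KFree_of_free Γ r s hfree (E i).Holds
      (fun x y hxy h => (hadj x y hxy).2 ⟨i, h⟩) univ univ)
    have h1 := hK (E i).G (E i).G' (E i).H (E i).B (Function.extend (E i).a (E i).u 0)
      (Function.extend (E i).b (E i).v 0) N μ (univ.image (E i).a) (univ.image (E i).b) (hnd i) hμ1 hμN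
      (by rw [card_image_of_injective _ (E i).inj_a, card_univ, hN])
      (by rw [card_image_of_injective _ (E i).inj_b, card_univ, hN]) (hG.trans hCN) (hG'.trans hCN)
      (KFree_extend (E i).B (E i).a (E i).b (E i).u (E i).v (E i).inj_a (E i).inj_b _ (r + s) hK')
    rw [cnt_extend (E i).B (E i).a (E i).b (E i).u (E i).v (E i).inj_a (E i).inj_b, hpow] at h1
    exact h1
  have h1 := edges_le Γ (fun i => (E i).Holds) (fun x y h => (hadj x y h.ne).1 h) _ hcnt
  refine h1.trans ?_
  have h2 : (0 : ℝ) < K * N ^ (2 - 1 / (((k + 1 : ℕ) : ℝ) + 1)) := by positivity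
  nlinarith

end Pool.Agent.K7.H41.BE
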