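import Pool.Agent.K7.H41.BE.Moment

/-!
# Bilinear maps with values in a group of bounded order
-/

set_option autoImplicit false

namespace Pool.Agent.K7.H41.BE

open Finset

/-- a finite set closed under subtraction -/
def Closed {H : Type} [AddCommGroup H] (A : Finset H) : Prop := (0 : H) ∈ A ∧ ∀ a ∈ A, ∀ b ∈ A, a - b ∈ A

variable {G G' H : Type} [AddCommGroup G] [AddCommGroup G'] [AddCommGroup H] [Fintype G] [Fintype G']

omit [Fintype G] [Fintype G'] in
/-- the elements `h` of `Γ` for which `B(h, ·)` has its values in `A` -/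
def subΓ (B : G →+ G' →+ H) (Γ : AddSubgroup G) (A : Finset H) (hA : Closed A) : AddSubgroup G where
  carrier := {h | h ∈ Γ ∧ ∀ y, B h y ∈ A}
  zero_mem' := ⟨Γ.zero_mem, fun y => by simpa using hA.1⟩
  neg_mem' := by
    rintro h ⟨h1, h2⟩
    refine ⟨Γ.neg_mem h1, fun y => ?_⟩
    have := hA.2 0 hA.1 _ (h2 y)
    simpa using this
  add_mem' := by
    rintro h h' ⟨h1, h2⟩ ⟨h1', h2'⟩
    refine ⟨Γ.add_mem h1 h1', fun y => ?_⟩
    have h3 : -(B h' y) ∈ A := by
      have := hA.2 0 hA.1 _ (h2' y)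
      simpa using this
    have := hA.2 _ (h2 y) _ h3
    simpa using this

open Classical in
/-- few directions are bad if all subgroups are small -/
theorem bad_directions (B : G →+ G' →+ H) (Γ : AddSubgroup G) (HF : Finset H) (L : ℕ) (hL : HF.card ≤ L)
    (hΓ : ∀ h ∈ Γ, ∀ y, B h y ∈ HF) (K : ℝ) (hK : 0 < K)
    (hsub : ∀ (A : Finset H) (hA : Closed A), A ⊆ HF → A ≠ HF →
      K * ((univ.filter fun h : G => h ∈ subΓ B Γ A hA).card : ℝ) ≤ (univ.filter fun h : G => h ∈ Γ).card) :
    ((univ.filter fun h : G => h ∈ Γ ∧ ∃ c ∈ HF, ∀ y, B h y ≠ c).card : ℝ) ≤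
      2 ^ L * Fintype.card G / K := by
  set Bad : Finset G := univ.filter fun h : G => h ∈ Γ ∧ ∃ c ∈ HF, ∀ y, B h y ≠ c with hBad
  let φ : G → Finset H := fun h => univ.image fun y : G' => B h y
  have hφ : ∀ h ∈ Bad, φ h ∈ HF.powerset := by
    intro h hh
    rw [mem_powerset]
    intro c hc
    obtain ⟨y, -, rfl⟩ := mem_image.1 hc
    exact hΓ h (mem_filter.1 hh).2.1 y
  have hcl : ∀ h, Closed (φ h) := by
    intro h
    refine ⟨mem_image.2 ⟨0, mem_univ _, map_zero _⟩, ?_⟩
    intro a ha b hb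
    obtain ⟨y, -, rfl⟩ := mem_image.1 ha
    obtain ⟨y', -, rfl⟩ := mem_image.1 hb
    exact mem_image.2 ⟨y - y', mem_univ _, map_sub _ _ _⟩
  have hfib : ∀ A ∈ HF.powerset, ((Bad.filter fun h => φ h = A).card : ℝ) ≤ Fintype.card G / K := by
    intro A hA
    rcases (Finset.eq_empty_or_nonempty (Bad.filter fun h => φ h = A)) with he | ⟨h0, hh0⟩
    · rw [he]
      simp
      positivity
    obtain ⟨hh1, e1⟩ := mem_filter.1 hh0
    subst e1
    have hne : φ h0 ≠ HF := by
      intro e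
      obtain ⟨-, -, c, hc, hcy⟩ := mem_filter.1 hh1
      have hc2 : c ∈ φ h0 := by
        rw [e]
        exact hc
      obtain ⟨y, -, hy⟩ := mem_image.1 hc2
      exact hcy y hy
    have h1 := hsub (φ h0) (hcl h0) (mem_powerset.1 hA) hne
    have h2 : ((Bad.filter fun h => φ h = φ h0).card : ℝ) ≤
        (univ.filter fun h : G => h ∈ subΓ B Γ (φ h0) (hcl h0)).card := by
      refine Nat.cast_le.2 (card_le_card fun h hh => ?_)
      obtain ⟨hh, e⟩ := mem_filter.1 hh
      refine mem_filter.2 ⟨mem_univ _, (mem_filter.1 hh).2.1, fun y => ?_⟩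
      rw [← e]
      exact mem_image_of_mem _ (mem_univ y)
    have h3 : ((univ.filter fun h : G => h ∈ Γ).card : ℝ) ≤ Fintype.card G := by
      exact_mod_cast card_le_univ _
    rw [le_div_iff₀ hK, mul_comm]
    exact ((mul_le_mul_of_nonneg_left h2 hK.le).trans h1).trans h3
  calc (Bad.card : ℝ) = ∑ A ∈ HF.powerset, ((Bad.filter fun h => φ h = A).card : ℝ) := by
        rw [card_eq_sum_card_fiberwise hφ]
        push_cast
        rfl
    _ ≤ ∑ _A ∈ HF.powerset, (Fintype.card G / K : ℝ) := sum_le_sum hfib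
    _ = 2 ^ HF.card * (Fintype.card G / K) := by
        rw [sum_const, nsmul_eq_mul, card_powerset]
        push_cast
        rfl
    _ ≤ 2 ^ L * (Fintype.card G / K) := by
        refine mul_le_mul_of_nonneg_right ?_ (by positivity)
        exact pow_le_pow_right₀ (by norm_num) hL
    _ = _ := by ring

open Classical in
/-- the number of pairs -/
noncomputable def cnt {α β : Type} (R : α → β → Prop) (S : Finset α) (T : Finset β) : ℝ :=
  ((∑ y ∈ T, (S.filter fun x => R x y).card : ℕ) : ℝ)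

theorem cnt_nonneg {α β : Type} (R : α → β → Prop) (S : Finset α) (T : Finset β) : 0 ≤ cnt R S T :=
  Nat.cast_nonneg _

open Classical in
omit [Fintype G'] [AddCommGroup G'] in
/-- the decomposition into the classes of a subgroup -/
theorem cosets_sum (Γ Γ' : AddSubgroup G) (hΓΓ : Γ' ≤ Γ) (R : G → G' → Prop) (x₀ : G) (S : Finset G)
    (hS : ∀ x ∈ S, x - x₀ ∈ Γ) (T : Finset G') :
    ((univ.filter fun h : G => h ∈ Γ').card : ℝ) * cnt R S T =
      ∑ x₁ ∈ univ.filter (fun x₁ : G => x₁ - x₀ ∈ Γ), cnt R (S.filter fun x => x - x₁ ∈ Γ') T := by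
  unfold cnt
  rw [← Nat.cast_mul, ← Nat.cast_sum]
  congr 1
  rw [sum_comm, mul_sum]
  refine sum_congr rfl fun y _ => ?_
  rw [mul_comm, ← smul_eq_mul, ← sum_const]
  have h1 : ∀ x₁ : G, ((S.filter fun x => x - x₁ ∈ Γ').filter fun x => R x y).card =
      ∑ x ∈ S.filter (fun x => R x y), if x - x₁ ∈ Γ' then 1 else 0 := by
    intro x₁
    rw [← card_filter, filter_filter, filter_filter]
    congr 1
    refine filter_congr fun x _ => ?_
    exact and_comm
  rw [sum_congr rfl fun x₁ _ => h1 x₁, sum_comm]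
  refine sum_congr rfl fun x hx => ?_
  rw [← card_filter]
  refine card_bij' (fun h _ => x - h) (fun x₁ _ => x - x₁) ?_ ?_ ?_ ?_
  · intro h hh
    rw [mem_filter, mem_filter]
    refine ⟨⟨mem_univ _, ?_⟩, ?_⟩
    · have : x - h - x₀ = (x - x₀) - h := by abel
      rw [this]
      exact Γ.sub_mem (hS x (mem_filter.1 hx).1) (hΓΓ (mem_filter.1 hh).2)
    · rw [sub_sub_cancel]
      exact (mem_filter.1 hh).2
  · intro x₁ hx₁
    exact mem_filter.2 ⟨mem_univ _, (mem_filter.1 hx₁).2⟩
  · intro h _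
    abel
  · intro x₁ _
    abel

/-- the statement proved by induction on `L` -/
def Small (r s L : ℕ) : Prop := ∀ c : ℝ, 0 < c → ∃ ν₀ : ℝ,
  ∀ (G G' H : Type) [AddCommGroup G] [AddCommGroup G'] [AddCommGroup H] [Fintype G] [Fintype G']
    (n ν : ℝ), ν₀ ≤ ν → ν ^ (r + 1) = n → (Fintype.card G : ℝ) ≤ n → (Fintype.card G' : ℝ) ≤ n →
    ∀ (B : G →+ G' →+ H) (Γ : AddSubgroup G) (HF : Finset H), Closed HF → HF.card ≤ L →
      (∀ h ∈ Γ, ∀ y, B h y ∈ HF) →
      ∀ (x₀ : G) (S : Finset G), (∀ x ∈ S, x - x₀ ∈ Γ) → ∀ (T : Finset G') (w : G' → H),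
        KFree (r + 1) s (fun x y => B x y = w y) S T →
        cnt (fun x y => B x y = w y) S T ≤ c * (n ^ 2 / ν)

/-- all subgroups small: the pseudorandom case -/
theorem pseudo (r s L : ℕ) (c' n : ℝ) (hc' : 0 < c') (hn0 : 0 < n)
    (hn : 8 * (L + 1) * ((r + 1) + s / (c' / (8 * (L + 1))) ^ r) / c' ≤ n)
    (hG : (Fintype.card G : ℝ) ≤ n) (hG' : (Fintype.card G' : ℝ) ≤ n)
    (B : G →+ G' →+ H) (Γ : AddSubgroup G) (HF : Finset H) (hcl : Closed HF) (hL : HF.card ≤ L + 1)
    (hΓ : ∀ h ∈ Γ, ∀ y, B h y ∈ HF)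
    (hsub : ∀ (A : Finset H) (hA : Closed A), A ⊆ HF → A ≠ HF → open Classical in
      (2 ^ (L + 1) * (2 * (L + 1) / c') ^ 2) * ((univ.filter fun h : G => h ∈ subΓ B Γ A hA).card : ℝ) ≤
        (univ.filter fun h : G => h ∈ Γ).card)
    (x₀ : G) (S : Finset G) (hS : ∀ x ∈ S, x - x₀ ∈ Γ) (T : Finset G') (w : G' → H)
    (hT : ∀ y ∈ T, ∃ x ∈ S, B x y = w y)
    (hfree : KFree (r + 1) s (fun x y => B x y = w y) S T) : (S.card : ℝ) * T.card < c' * n ^ 2 := by
  classical
  by_contra hcon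
  push Not at hcon
  set K : ℝ := 2 ^ (L + 1) * (2 * (L + 1) / c') ^ 2 with hK
  have hK0 : 0 < K := by positivity
  have hb := bad_directions B Γ HF (L + 1) hL hΓ K hK0 hsub
  have hw : ∀ y ∈ T, w y - B x₀ y ∈ HF := by
    intro y hy
    obtain ⟨x, hx, e⟩ := hT y hy
    rw [← e]
    have := hΓ _ (hS x hx) y
    rwa [map_sub, AddMonoidHom.sub_apply] at this
  have h1 := second_moment B Γ HF ⟨0, hcl.1⟩ hΓ _ hb x₀ S hS T (fun y => w y - B x₀ y) hw
  have hSn : (S.card : ℝ) ≤ n := le_trans (by exact_mod_cast card_le_univ S) hG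
  have hTn : (T.card : ℝ) ≤ n := le_trans (by exact_mod_cast card_le_univ T) hG'
  have hcnt : (∑ y ∈ T, ((S.card : ℝ) / HF.card - ((S.filter fun x => B (x - x₀) y = w y - B x₀ y).card : ℝ))) =
      T.card * (S.card / HF.card) - cnt (fun x y => B x y = w y) S T := by
    rw [sum_sub_distrib, sum_const, nsmul_eq_mul]
    unfold cnt
    push_cast
    congr 1
    refine sum_congr rfl fun y _ => ?_
    congr 2
    refine filter_congr fun x _ => ?_
    rw [map_sub, AddMonoidHom.sub_apply, sub_left_inj]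
  rw [hcnt] at h1
  have h2 : (T.card : ℝ) * (Fintype.card G' * S.card * (2 ^ (L + 1) * Fintype.card G / K)) ≤
      (c' * n ^ 2 / (2 * (L + 1))) ^ 2 := by
    have h3 : (2 ^ (L + 1) * Fintype.card G / K : ℝ) ≤ n * (c' / (2 * (L + 1))) ^ 2 := by
      rw [hK, div_le_iff₀ (by positivity)]
      calc (2 ^ (L + 1) * Fintype.card G : ℝ) ≤ 2 ^ (L + 1) * n := by gcongr
        _ = n * (c' / (2 * (L + 1))) ^ 2 * (2 ^ (L + 1) * (2 * (L + 1) / c') ^ 2) := by
            field_simp
    calc (T.card : ℝ) * (Fintype.card G' * S.card * (2 ^ (L + 1) * Fintype.card G / K)) ≤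
          n * (n * n * (n * (c' / (2 * (L + 1))) ^ 2)) := by gcongr
      _ = _ := by ring
  have h3 := abs_le_of_sq_le_sq' (h1.trans h2) (by positivity)
  have hq0 : (0 : ℝ) < HF.card := by exact_mod_cast card_pos.2 ⟨0, hcl.1⟩
  have hqL : (HF.card : ℝ) ≤ L + 1 := by exact_mod_cast hL
  have h4 : c' * n ^ 2 / (L + 1) ≤ T.card * (S.card / HF.card) := by
    calc c' * n ^ 2 / (L + 1) ≤ (S.card * T.card) / (L + 1) := by gcongr
      _ ≤ (S.card * T.card) / HF.card := by gcongr
      _ = _ := by ring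
  have h5 := kst hfree (c' / (8 * (L + 1))) (by positivity)
  have h6 : cnt (fun x y => B x y = w y) S T ≤ c' * n ^ 2 / (4 * (L + 1)) := by
    refine h5.trans ?_
    have h7 : ((r : ℝ) + 1) * T.card ≤ (r + 1) * n := by gcongr
    have h8 : c' / (8 * (L + 1)) * S.card * T.card ≤ c' * n ^ 2 / (8 * (L + 1)) := by
      calc c' / (8 * (L + 1)) * S.card * T.card ≤ c' / (8 * (L + 1)) * n * n := by gcongr
        _ = _ := by ring
    have h9 : s * S.card / (c' / (8 * (L + 1))) ^ r ≤ s / (c' / (8 * (L + 1))) ^ r * n := by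
      rw [mul_div_right_comm]
      gcongr
    have h10 : ((r + 1) + s / (c' / (8 * (L + 1))) ^ r) * n ≤ c' * n ^ 2 / (8 * (L + 1)) := by
      rw [div_le_iff₀ hc'] at hn
      rw [le_div_iff₀ (by positivity)]
      calc ((r + 1) + s / (c' / (8 * (L + 1))) ^ r) * n * (8 * (L + 1)) =
            (8 * (L + 1) * ((r + 1) + s / (c' / (8 * (L + 1))) ^ r)) * n := by ring
        _ ≤ (n * c') * n := by gcongr
        _ = _ := by ring
    have h11 : c' * n ^ 2 / (4 * (L + 1)) = c' * n ^ 2 / (8 * (L + 1)) + c' * n ^ 2 / (8 * (L + 1)) := by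
      rw [← add_div, div_eq_div_iff (by positivity) (by positivity)]
      ring
    rw [h11]
    linarith
  have h7 : c' * n ^ 2 / (L + 1) - c' * n ^ 2 / (2 * (L + 1)) ≤ c' * n ^ 2 / (4 * (L + 1)) := by
    linarith [h3.2]
  have h8 : c' * n ^ 2 / (L + 1) - c' * n ^ 2 / (2 * (L + 1)) = 2 * (c' * n ^ 2 / (4 * (L + 1))) := by
    rw [div_sub_div _ _ (by positivity) (by positivity), mul_div_assoc', div_eq_div_iff (by positivity)
      (by positivity)]
    ring
  have h9 : 0 < c' * n ^ 2 / (4 * (L + 1)) := by positivity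
  linarith

/-- **The induction.** -/
theorem small (r s : ℕ) (hr : 1 ≤ r) : ∀ L : ℕ, Small r s L := by
  classical
  intro L
  induction L with
  | zero =>
    intro c _
    refine ⟨0, ?_⟩
    intro G G' H _ _ _ _ _ n ν _ _ _ _ B Γ HF hcl hL
    exact absurd (card_pos.2 ⟨0, hcl.1⟩) (by omega)
  | succ L ih =>
    intro c hc
    obtain ⟨lam, hlam1, hlam⟩ : ∃ lam : ℝ, 1 ≤ lam ∧ 4 * s / c ≤ lam ^ r :=
      ⟨max 1 (4 * s / c), le_max_left _ _, (le_max_right _ _).trans (by
        calc max 1 (4 * s / c) = (max 1 (4 * s / c : ℝ)) ^ 1 := (pow_one _).symm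
          _ ≤ _ := pow_le_pow_right₀ (le_max_left _ _) hr)⟩
    set c' : ℝ := c / (2 * lam) with hc'
    have hc'0 : 0 < c' := by positivity
    set K : ℝ := 2 ^ (L + 1) * (2 * (L + 1) / c') ^ 2 with hK
    have hK0 : 0 < K := by positivity
    obtain ⟨ν₁, hν₁⟩ := ih (c / K) (by positivity)
    refine ⟨max 1 (max ν₁ (max (4 * (r + 1) / c)
      (8 * (L + 1) * ((r + 1) + s / (c' / (8 * (L + 1))) ^ r) / c'))), ?_⟩
    intro G G' H _ _ _ _ _ n ν hν hνn hG hG' B Γ HF hcl hL hΓ x₀ S hS T w hfree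
    have hν1 : 1 ≤ ν := (le_max_left _ _).trans hν
    have hν2 : ν₁ ≤ ν := (le_max_left _ _).trans ((le_max_right _ _).trans hν)
    have hν3 : 4 * (r + 1) / c ≤ ν :=
      (le_max_left _ _).trans ((le_max_right _ _).trans ((le_max_right _ _).trans hν))
    have hν4 : 8 * (L + 1) * ((r + 1) + s / (c' / (8 * (L + 1))) ^ r) / c' ≤ ν :=
      (le_max_right _ _).trans ((le_max_right _ _).trans ((le_max_right _ _).trans hν))
    have hν0 : 0 < ν := by linarith
    have hνn' : ν ≤ n := by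
      rw [← hνn]
      calc ν = ν ^ 1 := (pow_one ν).symm
        _ ≤ _ := pow_le_pow_right₀ hν1 (by omega)
    have hn0 : 0 < n := by linarith
    by_cases hcase : ∃ (A : Finset H) (hA : Closed A), A ⊆ HF ∧ A ≠ HF ∧
      ((univ.filter fun h : G => h ∈ Γ).card : ℝ) < K * ((univ.filter fun h : G => h ∈ subΓ B Γ A hA).card : ℝ)
    · obtain ⟨A, hA, hAH, hne, hsz⟩ := hcase
      have hAc : A.card ≤ L := by
        have := card_lt_card (Finset.ssubset_iff_subset_ne.2 ⟨hAH, hne⟩)
        omega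
      have hle : subΓ B Γ A hA ≤ Γ := fun h hh => hh.1
      have h1 := cosets_sum Γ (subΓ B Γ A hA) hle (fun x y => B x y = w y) x₀ S hS T
      have h2 : ∀ x₁ ∈ univ.filter (fun x₁ : G => x₁ - x₀ ∈ Γ),
          cnt (fun x y => B x y = w y) (S.filter fun x => x - x₁ ∈ subΓ B Γ A hA) T ≤ c / K * (n ^ 2 / ν) := by
        intro x₁ _
        exact hν₁ G G' H n ν hν2 hνn hG hG' B (subΓ B Γ A hA) A hA hAc (fun h hh y => hh.2 y) x₁ _
          (fun x hx => (mem_filter.1 hx).2) T w (hfree.mono (filter_subset _ _) (Finset.Subset.refl _))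
      have h3 := sum_le_sum h2
      rw [← h1, sum_const, nsmul_eq_mul] at h3
      have h4 : ((univ.filter (fun x₁ : G => x₁ - x₀ ∈ Γ)).card : ℝ) = (univ.filter fun h : G => h ∈ Γ).card := by
        congr 1
        refine card_bij' (fun x _ => x - x₀) (fun h _ => h + x₀) ?_ ?_ ?_ ?_
        · intro x hx
          exact mem_filter.2 ⟨mem_univ _, (mem_filter.1 hx).2⟩
        · intro h hh
          refine mem_filter.2 ⟨mem_univ _, ?_⟩
          rw [add_sub_cancel_right]
          exact (mem_filter.1 hh).2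
        · intro x _
          abel
        · intro x _
          abel
      rw [h4] at h3
      have h5 : ((univ.filter fun h : G => h ∈ Γ).card : ℝ) * (c / K * (n ^ 2 / ν)) ≤
          K * ((univ.filter fun h : G => h ∈ subΓ B Γ A hA).card : ℝ) * (c / K * (n ^ 2 / ν)) :=
        mul_le_mul_of_nonneg_right hsz.le (by positivity)
      have h6 : K * ((univ.filter fun h : G => h ∈ subΓ B Γ A hA).card : ℝ) * (c / K * (n ^ 2 / ν)) =
          ((univ.filter fun h : G => h ∈ subΓ B Γ A hA).card : ℝ) * (c * (n ^ 2 / ν)) := by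
        field_simp
      have h7 : (0 : ℝ) < ((univ.filter fun h : G => h ∈ subΓ B Γ A hA).card : ℝ) := by
        have : (0 : G) ∈ univ.filter fun h : G => h ∈ subΓ B Γ A hA :=
          mem_filter.2 ⟨mem_univ _, (subΓ B Γ A hA).zero_mem⟩
        exact_mod_cast card_pos.2 ⟨0, this⟩
      exact le_of_mul_le_mul_left ((h3.trans h5).trans (le_of_eq h6)) h7
    · push Not at hcase
      by_contra hcon
      push Not at hcon
      set T' : Finset G' := T.filter fun y => ∃ x ∈ S, B x y = w y with hT'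
      have hcT : cnt (fun x y => B x y = w y) S T' = cnt (fun x y => B x y = w y) S T := by
        unfold cnt
        congr 1
        rw [hT', sum_filter_of_ne]
        intro y _ hy
        obtain ⟨x, hx⟩ := card_pos.1 (Nat.pos_of_ne_zero hy)
        exact ⟨x, (mem_filter.1 hx).1, (mem_filter.1 hx).2⟩
      have hfree' : KFree (r + 1) s (fun x y => B x y = w y) S T' :=
        hfree.mono (Finset.Subset.refl _) (filter_subset _ _)
      have h1 := pseudo r s L c' n hc'0 hn0 (hν4.trans hνn') hG hG' B Γ HF hcl hL hΓ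
        (fun A hA h1 h2 => hcase A hA h1 h2) x₀ S hS T' w (fun y hy => (mem_filter.1 hy).2) hfree'
      have h2 := kst hfree' (lam / ν) (by positivity)
      have h3 : cnt (fun x y => B x y = w y) S T' ≤ (r + 1) * T'.card + lam / ν * S.card * T'.card +
          s * S.card / (lam / ν) ^ r := h2
      rw [hcT] at h3
      have hSn : (S.card : ℝ) ≤ n := le_trans (by exact_mod_cast card_le_univ S) hG
      have hTn : (T'.card : ℝ) ≤ n := le_trans (by exact_mod_cast card_le_univ T') hG'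
      have h4 : ((r : ℝ) + 1) * T'.card ≤ c / 4 * (n ^ 2 / ν) := by
        have h5 : 4 * (r + 1) / c ≤ n / ν := by
          refine hν3.trans ?_
          rw [le_div_iff₀ hν0, ← hνn]
          calc ν * ν = ν ^ 2 := by ring
            _ ≤ _ := pow_le_pow_right₀ hν1 (by omega)
        rw [div_le_iff₀ hc] at h5
        calc ((r : ℝ) + 1) * T'.card ≤ (r + 1) * n := by gcongr
          _ = (4 * (r + 1)) * (n / 4) := by ring
          _ ≤ (n / ν * c) * (n / 4) := by gcongr
          _ = _ := by ring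
      have h5 : s * S.card / (lam / ν) ^ r ≤ c / 4 * (n ^ 2 / ν) := by
        have h6 : (s : ℝ) ≤ c / 4 * lam ^ r := by
          rw [div_le_iff₀ hc] at hlam
          linarith
        have h7 : ν ^ r = n / ν := by
          rw [eq_div_iff hν0.ne', ← hνn]
          ring
        rw [div_pow, h7, div_div_eq_mul_div, div_le_iff₀ (by positivity)]
        calc s * S.card * (n / ν) ≤ (c / 4 * lam ^ r) * n * (n / ν) := by gcongr
          _ = _ := by ring
      have h6 : lam / ν * S.card * T'.card < c / 2 * (n ^ 2 / ν) := by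
        calc lam / ν * S.card * T'.card = lam / ν * (S.card * T'.card) := by ring
          _ < lam / ν * (c' * n ^ 2) := by
              exact mul_lt_mul_of_pos_left h1 (by positivity)
          _ = c / 2 * (n ^ 2 / ν) := by
              rw [hc']
              field_simp
      have h7 : c * (n ^ 2 / ν) = c / 4 * (n ^ 2 / ν) + c / 4 * (n ^ 2 / ν) + c / 2 * (n ^ 2 / ν) := by ring
      rw [h7] at hcon
      linarith

end Pool.Agent.K7.H41.BE
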