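import Pool.Agent.K7.H41.BE.Count

/-!
# The second moment
-/

set_option autoImplicit false

namespace Pool.Agent.K7.H41.BE

open Finset

variable {G G' H : Type} [AddCommGroup G] [AddCommGroup G'] [AddCommGroup H] [Fintype G] [Fintype G']

open Classical in
/-- the number of zeros of `B(h, ·)` -/
noncomputable def pz (B : G →+ G' →+ H) (h : G) : ℕ := (univ.filter fun y : G' => B h y = 0).card

omit [Fintype G] in
theorem pz_le (B : G →+ G' →+ H) (h : G) : pz B h ≤ Fintype.card G' := by
  unfold pz
  exact card_le_univ _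

open Classical in
omit [Fintype G] in
/-- the fibres of `B(h, ·)` have the same size -/
theorem fibre_card (B : G →+ G' →+ H) (h : G) (y0 : G') :
    (univ.filter fun y : G' => B h y = B h y0).card = pz B h := by
  unfold pz
  refine card_bij' (fun y _ => y - y0) (fun y _ => y + y0) ?_ ?_ ?_ ?_
  · intro y hy
    refine mem_filter.2 ⟨mem_univ _, ?_⟩
    rw [map_sub, (mem_filter.1 hy).2, sub_self]
  · intro y hy
    refine mem_filter.2 ⟨mem_univ _, ?_⟩
    rw [map_add, (mem_filter.1 hy).2, zero_add]
  · intro y _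
    abel
  · intro y _
    abel

open Classical in
omit [Fintype G] in
/-- if `B(h, ·)` is onto the finite set `HF`, then it has `|G'| / |HF|` zeros -/
theorem pz_mul (B : G →+ G' →+ H) (h : G) (HF : Finset H) (h1 : ∀ y, B h y ∈ HF)
    (h2 : ∀ c ∈ HF, ∃ y, B h y = c) : HF.card * pz B h = Fintype.card G' := by
  rw [← card_univ, card_eq_sum_card_fiberwise (f := fun y : G' => B h y) (t := HF)
    (fun y _ => h1 y), ← smul_eq_mul, ← sum_const]
  refine sum_congr rfl fun c hc => ?_
  obtain ⟨y0, rfl⟩ := h2 c hc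
  exact (fibre_card B h y0).symm

open Classical in
/-- **The second moment.** -/
theorem second_moment (B : G →+ G' →+ H) (Γ : AddSubgroup G) (HF : Finset H) (hHF : HF.Nonempty)
    (hΓ : ∀ h ∈ Γ, ∀ y, B h y ∈ HF) (b : ℝ)
    (hb : ((univ.filter fun h : G => h ∈ Γ ∧ ∃ c ∈ HF, ∀ y, B h y ≠ c).card : ℝ) ≤ b)
    (x₀ : G) (S : Finset G) (hS : ∀ x ∈ S, x - x₀ ∈ Γ) (T : Finset G') (w : G' → H)
    (hw : ∀ y ∈ T, w y ∈ HF) :
    (∑ y ∈ T, ((S.card : ℝ) / HF.card - ((S.filter fun x => B (x - x₀) y = w y).card : ℝ))) ^ 2 ≤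
      T.card * (Fintype.card G' * S.card * b) := by
  set q : ℝ := (HF.card : ℝ) with hq
  have hq0 : 0 < q := by
    rw [hq]
    exact_mod_cast card_pos.2 hHF
  set f : G' → H → ℝ := fun y c => ((S.filter fun x => B (x - x₀) y = c).card : ℝ) with hf
  have hfsum : ∀ y, (∑ c ∈ HF, f y c) = S.card := by
    intro y
    have h1 := card_eq_sum_card_fiberwise (s := S) (f := fun x => B (x - x₀) y) (t := HF)
      (fun x hx => hΓ _ (hS x hx) y)
    rw [h1]
    push_cast
    rfl
  -- the sum of the squares
  have hsq : (∑ y : G', ∑ c ∈ HF, f y c ^ 2) = ∑ x ∈ S, ∑ x' ∈ S, (pz B (x - x') : ℝ) := by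
    have h1 : ∀ y : G', (∑ c ∈ HF, f y c ^ 2) = ∑ x ∈ S, ∑ x' ∈ S, if B (x - x') y = 0 then (1 : ℝ) else 0 := by
      intro y
      have h2 : ∀ c ∈ HF, f y c ^ 2 = ∑ x ∈ S, ∑ x' ∈ S,
          if B (x - x₀) y = c ∧ B (x' - x₀) y = c then (1 : ℝ) else 0 := by
        intro c _
        have h3 : f y c = ∑ x ∈ S, if B (x - x₀) y = c then (1 : ℝ) else 0 := by
          rw [hf]
          simp only
          rw [card_filter]
          push_cast
          rfl
        rw [h3, sq, sum_mul_sum]
        refine sum_congr rfl fun x _ => sum_congr rfl fun x' _ => ?_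
        generalize B (x - x₀) y = p
        generalize B (x' - x₀) y = p'
        by_cases e1 : p = c <;> by_cases e2 : p' = c <;> simp [e1, e2]
      rw [sum_congr rfl h2, sum_comm]
      refine sum_congr rfl fun x hx => ?_
      rw [sum_comm]
      refine sum_congr rfl fun x' _ => ?_
      have h4 : (∑ c ∈ HF, if B (x - x₀) y = c ∧ B (x' - x₀) y = c then (1 : ℝ) else 0) =
          ∑ c ∈ HF, if c = B (x - x₀) y then (if B (x' - x₀) y = B (x - x₀) y then (1 : ℝ) else 0) else 0 := by
        refine sum_congr rfl fun c _ => ?_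
        generalize B (x - x₀) y = p
        generalize B (x' - x₀) y = p'
        by_cases e1 : c = p
        · simp [e1]
        · simp [e1, Ne.symm e1]
      rw [h4, sum_ite_eq' HF (B (x - x₀) y), if_pos (hΓ _ (hS x hx) y)]
      refine if_congr ?_ rfl rfl
      have e : B (x - x') y = B (x - x₀) y - B (x' - x₀) y := by
        rw [← AddMonoidHom.sub_apply, ← map_sub]
        congr 2
        abel
      rw [e, sub_eq_zero]
      exact ⟨fun h => h.symm, fun h => h.symm⟩
    rw [sum_congr rfl fun y _ => h1 y, sum_comm]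
    refine sum_congr rfl fun x _ => ?_
    rw [sum_comm]
    refine sum_congr rfl fun x' _ => ?_
    unfold pz
    rw [card_filter]
    push_cast
    rfl
  have hbad : (∑ x ∈ S, ∑ x' ∈ S, (pz B (x - x') : ℝ)) ≤
      S.card * (S.card * (Fintype.card G' / q)) + S.card * (Fintype.card G' * b) := by
    have h1 : ∀ x ∈ S, (∑ x' ∈ S, (pz B (x - x') : ℝ)) ≤
        S.card * (Fintype.card G' / q) + Fintype.card G' * b := by
      intro x hx
      have h2 : ∀ x' ∈ S, (pz B (x - x') : ℝ) ≤ Fintype.card G' / q +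
          if (∃ c ∈ HF, ∀ y, B (x - x') y ≠ c) then (Fintype.card G' : ℝ) else 0 := by
        intro x' hx'
        have hmem : x - x' ∈ Γ := by
          have : x - x' = (x - x₀) - (x' - x₀) := by abel
          rw [this]
          exact Γ.sub_mem (hS x hx) (hS x' hx')
        split_ifs with hc
        · have h3 : (pz B (x - x') : ℝ) ≤ Fintype.card G' := by exact_mod_cast pz_le B (x - x')
          have h4 : (0 : ℝ) ≤ Fintype.card G' / q := by positivity
          linarith
        · push Not at hc
          have h3 := pz_mul B (x - x') HF (hΓ _ hmem) hc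
          rw [add_zero, le_div_iff₀ hq0, mul_comm, hq]
          exact_mod_cast h3.le
      refine (sum_le_sum h2).trans ?_
      rw [sum_add_distrib, sum_const, nsmul_eq_mul, ← sum_filter, sum_const, nsmul_eq_mul, mul_comm _ b]
      have h5 : (((S.filter fun x' => ∃ c ∈ HF, ∀ y, B (x - x') y ≠ c).card : ℕ) : ℝ) ≤ b := by
        refine le_trans ?_ hb
        have : (S.filter fun x' => ∃ c ∈ HF, ∀ y, B (x - x') y ≠ c).card ≤
            (univ.filter fun h : G => h ∈ Γ ∧ ∃ c ∈ HF, ∀ y, B h y ≠ c).card := by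
          refine card_le_card_of_injOn (fun x' => x - x') ?_ (fun a _ b _ e => by simpa using e)
          intro x' hx'
          simp only [coe_filter, Set.mem_ofPred_eq] at hx'
          simp only [coe_filter, mem_univ, true_and, Set.mem_ofPred_eq]
          refine ⟨?_, hx'.2⟩
          have : x - x' = (x - x₀) - (x' - x₀) := by abel
          rw [this]
          exact Γ.sub_mem (hS x hx) (hS x' hx'.1)
        exact_mod_cast this
      have h6 := mul_le_mul_of_nonneg_right h5 (Nat.cast_nonneg (α := ℝ) (Fintype.card G'))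
      linarith
    refine (sum_le_sum h1).trans (le_of_eq ?_)
    rw [sum_const, nsmul_eq_mul]
    ring
  -- the variance
  have hvar : (∑ y : G', ∑ c ∈ HF, (f y c - S.card / q) ^ 2) ≤ S.card * (Fintype.card G' * b) := by
    have h1 : ∀ y : G', (∑ c ∈ HF, (f y c - S.card / q) ^ 2) = (∑ c ∈ HF, f y c ^ 2) - S.card ^ 2 / q := by
      intro y
      have h2 : ∀ c ∈ HF, (f y c - S.card / q) ^ 2 =
          f y c ^ 2 - 2 * (S.card / q) * f y c + (S.card / q) ^ 2 := fun c _ => by ring
      rw [sum_congr rfl h2, sum_add_distrib, sum_sub_distrib, ← mul_sum, hfsum, sum_const, nsmul_eq_mul,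
        ← hq]
      field_simp
      ring
    rw [sum_congr rfl fun y _ => h1 y, sum_sub_distrib, hsq, sum_const, nsmul_eq_mul, card_univ]
    have h3 : (Fintype.card G' : ℝ) * (S.card ^ 2 / q) = S.card * (S.card * (Fintype.card G' / q)) := by
      ring
    rw [h3]
    linarith
  calc (∑ y ∈ T, ((S.card : ℝ) / q - ((S.filter fun x => B (x - x₀) y = w y).card : ℝ))) ^ 2
      ≤ T.card * ∑ y ∈ T, ((S.card : ℝ) / q - ((S.filter fun x => B (x - x₀) y = w y).card : ℝ)) ^ 2 :=
        sq_sum_le_card_mul_sum_sq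
    _ ≤ T.card * ∑ y : G', ∑ c ∈ HF, (f y c - S.card / q) ^ 2 := by
        refine mul_le_mul_of_nonneg_left ?_ (Nat.cast_nonneg _)
        refine le_trans (sum_le_sum fun y hy => ?_) (sum_le_sum_of_subset_of_nonneg (subset_univ T)
          fun y _ _ => sum_nonneg fun c _ => sq_nonneg _)
        have h5 : ((S.card : ℝ) / q - ((S.filter fun x => B (x - x₀) y = w y).card : ℝ)) ^ 2 =
            (f y (w y) - S.card / q) ^ 2 := by
          rw [hf]
          ring
        rw [h5]
        exact single_le_sum (f := fun c => (f y c - S.card / q) ^ 2) (fun c _ => sq_nonneg _) (hw y hy)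
    _ ≤ T.card * (Fintype.card G' * S.card * b) := by
        refine mul_le_mul_of_nonneg_left ?_ (Nat.cast_nonneg _)
        linarith

end Pool.Agent.K7.H41.BE
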