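import Pool.Agent.K7.H41.BE.Restrict

/-!
# Nondegenerate bilinear equations
-/

set_option autoImplicit false

namespace Pool.Agent.K7.H41.BE

open Finset

/-- the computation with real numbers -/
theorem onto_real (k : ℕ) (s C K N μ I Ω : ℝ) (hs : 0 ≤ s) (hC : 1 ≤ C) (hμ : 1 ≤ μ) (hμN : μ ^ (k + 2) = N)
    (hK1 : 1 ≤ K) (hK8 : 8 * C ≤ K) (hK24 : 24 * (k + 1) * C ^ 3 ≤ K)
    (hKs : 2 * s * C ^ 3 * (12 * C ^ 4) ^ k ≤ K) (hI : K * (N ^ 2 / μ) < I)
    (hΩ : I ^ 2 ≥ C * N ^ 3 → N ≤ I → Ω ≤ 3 * C ^ 2 * I)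
    (hm : ∀ τ : ℝ, 0 < τ → I ^ 2 / (C * N) ≤ I + 3 * (k + 1) * (C * N) ^ 2 + τ * (C * N * Ω) +
      s * (C * N) ^ 2 / τ ^ k) : False := by
  have hμ0 : 0 < μ := by linarith
  have hC0 : 0 < C := by linarith
  have hK0 : 0 < K := by linarith
  have hμ2 : μ ^ 2 ≤ N := by
    rw [← hμN]
    exact pow_le_pow_right₀ hμ (by omega)
  have hN1 : 1 ≤ N := by
    rw [← hμN]
    exact one_le_pow₀ hμ
  have hN0 : 0 < N := by linarith
  have hI0 : 0 < I := lt_of_le_of_lt (by positivity) hI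
  have hK2 : K ≤ K ^ 2 := by nlinarith
  have hI2 : K ^ 2 * N ^ 3 ≤ I ^ 2 := by
    calc K ^ 2 * N ^ 3 = K ^ 2 * (N ^ 4 / N) := by
          field_simp
      _ ≤ K ^ 2 * (N ^ 4 / μ ^ 2) := by gcongr
      _ = (K * (N ^ 2 / μ)) ^ 2 := by ring
      _ ≤ I ^ 2 := pow_le_pow_left₀ (by positivity) hI.le 2
  have hN32 : N ^ 2 ≤ N ^ 3 := pow_le_pow_right₀ hN1 (by norm_num)
  have h8 : 8 * C * N ≤ I := by
    refine le_of_sq_le_sq ?_ hI0.le
    calc (8 * C * N) ^ 2 = (8 * C) ^ 2 * N ^ 2 := by ring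
      _ ≤ K ^ 2 * N ^ 3 := by gcongr
      _ ≤ I ^ 2 := hI2
  have hNI : N ≤ I := by nlinarith
  have hCN : C * N ^ 3 ≤ I ^ 2 := by
    refine le_trans ?_ hI2
    have : C ≤ K ^ 2 := by linarith
    gcongr
  have h1 := hΩ hCN hNI
  have h2 := hm (I / (12 * C ^ 4 * N ^ 2)) (by positivity)
  have h3 : I / (12 * C ^ 4 * N ^ 2) * (C * N * Ω) ≤ I ^ 2 / (4 * (C * N)) := by
    calc I / (12 * C ^ 4 * N ^ 2) * (C * N * Ω) ≤ I / (12 * C ^ 4 * N ^ 2) * (C * N * (3 * C ^ 2 * I)) := by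
          gcongr
      _ = I ^ 2 / (4 * (C * N)) := by
          field_simp
          norm_num
  have h4 : I ≤ I ^ 2 / (8 * (C * N)) := by
    rw [le_div_iff₀ (by positivity), sq]
    refine mul_le_mul_of_nonneg_left ?_ hI0.le
    linarith
  have h5 : 3 * (k + 1) * (C * N) ^ 2 ≤ I ^ 2 / (8 * (C * N)) := by
    rw [le_div_iff₀ (by positivity)]
    refine le_trans ?_ hI2
    calc 3 * (k + 1) * (C * N) ^ 2 * (8 * (C * N)) = (24 * (k + 1) * C ^ 3) * N ^ 3 := by ring
      _ ≤ K ^ 2 * N ^ 3 := by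
          gcongr
          exact hK24.trans hK2
  have h6 : I ^ 2 / (2 * (C * N)) ≤ s * (C * N) ^ 2 / (I / (12 * C ^ 4 * N ^ 2)) ^ k := by
    have e1 : I ^ 2 / (C * N) = I ^ 2 / (2 * (C * N)) + I ^ 2 / (8 * (C * N)) + I ^ 2 / (8 * (C * N)) +
        I ^ 2 / (4 * (C * N)) := by
      field_simp
      norm_num
    linarith
  have h7 : I ^ (k + 2) ≤ 2 * s * C ^ 3 * (12 * C ^ 4) ^ k * N ^ (2 * k + 3) := by
    rw [div_pow, div_div_eq_mul_div, div_le_div_iff₀ (by positivity) (by positivity)] at h6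
    calc I ^ (k + 2) = I ^ 2 * I ^ k := by ring
      _ ≤ s * (C * N) ^ 2 * (12 * C ^ 4 * N ^ 2) ^ k * (2 * (C * N)) := h6
      _ = _ := by ring
  have h9 : K ^ (k + 2) * N ^ (2 * k + 3) < I ^ (k + 2) := by
    calc K ^ (k + 2) * N ^ (2 * k + 3) = (K * (N ^ 2 / μ)) ^ (k + 2) := by
          rw [mul_pow, div_pow, hμN]
          field_simp
          ring
      _ < I ^ (k + 2) := pow_lt_pow_left₀ hI (by positivity) (by omega)
  have h10 : K ≤ K ^ (k + 2) := by
    calc K = K ^ 1 := (pow_one K).symm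
      _ ≤ _ := pow_le_pow_right₀ hK1 (by omega)
  have h11 : 2 * s * C ^ 3 * (12 * C ^ 4) ^ k * N ^ (2 * k + 3) ≤ K ^ (k + 2) * N ^ (2 * k + 3) := by
    gcongr
    exact hKs.trans h10
  linarith

/-- **Nondegenerate bilinear equations.** -/
theorem onto_bound (k s : ℕ) (C : ℝ) (hC : 1 ≤ C) : ∃ K : ℝ, 0 < K ∧
    ∀ (G G' H : Type) [AddCommGroup G] [AddCommGroup G'] [AddCommGroup H] [Fintype G] [Fintype G']
      (B : G →+ G' →+ H) (u : G → H) (v : G' → H) (N μ : ℝ) (S : Finset G) (T : Finset G'),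
      (∀ h, h ≠ 0 → Function.Surjective (B h)) → 1 ≤ μ → μ ^ (k + 2) = N →
      (S.card : ℝ) = N → (T.card : ℝ) = N → (Fintype.card G : ℝ) ≤ C * N → (Fintype.card G' : ℝ) ≤ C * N →
      KFree (2 * (k + 1)) s (Rel B u v) S T → cnt (Rel B u v) S T ≤ K * (N ^ 2 / μ) := by
  classical
  obtain ⟨K, hK1, hK8, hK24, hKs⟩ : ∃ K : ℝ, 1 ≤ K ∧ 8 * C ≤ K ∧ 24 * (k + 1) * C ^ 3 ≤ K ∧
      2 * s * C ^ 3 * (12 * C ^ 4) ^ k ≤ K := by
    refine ⟨1 + 8 * C + 24 * (k + 1) * C ^ 3 + 2 * s * C ^ 3 * (12 * C ^ 4) ^ k, ?_, ?_, ?_, ?_⟩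
    all_goals
      have h1 : 0 ≤ 8 * C := by positivity
      have h2 : 0 ≤ 24 * ((k : ℝ) + 1) * C ^ 3 := by positivity
      have h3 : 0 ≤ 2 * (s : ℝ) * C ^ 3 * (12 * C ^ 4) ^ k := by positivity
      linarith
  refine ⟨K, by linarith, ?_⟩
  intro G G' H _ _ _ _ _ B u v N μ S T hB hμ hμN hS hT hG hG' hfree
  have hμ0 : 0 < μ := by linarith
  have hN1 : 1 ≤ N := by
    rw [← hμN]
    exact one_le_pow₀ hμ
  have hN0 : 0 < N := by linarith
  have hC0 : 0 < C := by linarith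
  by_contra hcon
  push Not at hcon
  by_cases hex : ∃ h : G, h ≠ 0
  · obtain ⟨h0, hh0⟩ := hex
    have : Finite H := Finite.of_surjective _ (hB h0 hh0)
    have : Fintype H := Fintype.ofFinite H
    have hq0 : (0 : ℝ) < Fintype.card H := by exact_mod_cast Fintype.card_pos
    have h2 := second_onto B hB u v S T
    have h3 := zeros_onto B hB
    refine onto_real k s C K N μ (cnt (Rel B u v) S T) (zeros B) (Nat.cast_nonneg _) hC hμ hμN hK1 hK8 hK24
      hKs hcon ?_ ?_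
    · intro h4 h5
      have h6 : ((T.card : ℝ) * (S.card / Fintype.card H) - cnt (Rel B u v) S T) ^ 2 ≤ cnt (Rel B u v) S T ^ 2 := by
        refine h2.trans (le_trans ?_ h4)
        rw [hS, hT]
        calc N * (N * (Fintype.card G' : ℝ)) ≤ N * (N * (C * N)) := by gcongr
          _ = _ := by ring
      have h7 := (abs_le_of_sq_le_sq' h6 (cnt_nonneg _ _ _)).2
      rw [hS, hT] at h7
      have h8 : N ^ 2 / Fintype.card H ≤ 2 * cnt (Rel B u v) S T := by
        have : N ^ 2 / Fintype.card H = N * (N / Fintype.card H) := by ring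
        rw [this]
        linarith
      calc (zeros B : ℝ) ≤ Fintype.card G * (Fintype.card G' / Fintype.card H) + Fintype.card G' := h3
        _ ≤ (C * N) * ((C * N) / Fintype.card H) + C * N := by gcongr
        _ = C ^ 2 * (N ^ 2 / Fintype.card H) + C * N := by ring
        _ ≤ C ^ 2 * (2 * cnt (Rel B u v) S T) + C ^ 2 * cnt (Rel B u v) S T := by
            refine add_le_add (mul_le_mul_of_nonneg_left h8 (by positivity)) ?_
            have : C ≤ C ^ 2 := by nlinarith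
            exact mul_le_mul this h5 hN0.le (by positivity)
        _ = _ := by ring
    · intro τ hτ
      have h4 := main_ineq (liftB B) (liftU S u) (liftU T v) (k := k) (s := s) ∅ univ
        (by simpa using KFree_lift (by omega) B u v S T hfree) τ hτ
      have e1 : ((∑ y : G', (nb (Rel (liftB B) (liftU S u) (liftU T v)) y).card : ℕ) : ℝ) =
          cnt (Rel B u v) S T := pairs_lift B u v S T
      rw [e1, card_empty, card_univ, Nat.cast_zero, mul_zero, add_zero] at h4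
      have h5 : cnt (Rel B u v) S T ^ 2 / (C * N) ≤
          ((∑ y : G', (nb (Rel (liftB B) (liftU S u) (liftU T v)) y).card ^ 2 : ℕ) : ℝ) := by
        rw [div_le_iff₀ (by positivity), ← e1]
        have h6 := sq_sum_le_card_mul_sum_sq (s := (univ : Finset G'))
          (f := fun y => ((nb (Rel (liftB B) (liftU S u) (liftU T v)) y).card : ℝ))
        rw [card_univ] at h6
        have h7 : (0 : ℝ) ≤ ∑ y : G', ((nb (Rel (liftB B) (liftU S u) (liftU T v)) y).card : ℝ) ^ 2 :=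
          sum_nonneg fun _ _ => sq_nonneg _
        have h8 := mul_le_mul_of_nonneg_right hG' h7
        push_cast
        linarith
      have h6 : (Fintype.card G : ℝ) * (3 * (k + 1) * Fintype.card G') ≤ 3 * (k + 1) * (C * N) ^ 2 := by
        calc (Fintype.card G : ℝ) * (3 * (k + 1) * Fintype.card G') ≤ (C * N) * (3 * (k + 1) * (C * N)) := by
              gcongr
          _ = _ := by ring
      have h7 : τ * ((∑ y : G', ∑ h : G, qq (liftB B) (liftU S u) h y : ℕ) : ℝ) ≤ τ * (C * N * zeros B) := by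
        refine mul_le_mul_of_nonneg_left ?_ hτ.le
        have h8 : ((∑ y : G', ∑ h : G, qq (liftB B) (liftU S u) h y : ℕ) : ℝ) ≤
            Fintype.card G * zeros B := by
          have := sum_qq (liftB B) (liftU S u)
          rw [zeros_lift] at this
          exact_mod_cast this
        exact h8.trans (mul_le_mul_of_nonneg_right hG (Nat.cast_nonneg _))
      have h8 : s * (Fintype.card G : ℝ) ^ 2 / τ ^ k ≤ s * (C * N) ^ 2 / τ ^ k := by gcongr
      linarith
  · push Not at hex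
    have h1 : (Fintype.card G : ℝ) ≤ 1 := by
      have : Fintype.card G ≤ 1 := Fintype.card_le_one_iff.2 fun a b => by rw [hex a, hex b]
      exact_mod_cast this
    have h2 : N ≤ 1 := by
      rw [← hS]
      refine le_trans ?_ h1
      exact_mod_cast card_le_univ S
    have h3 : cnt (Rel B u v) S T ≤ 1 := by
      unfold cnt
      push_cast
      calc (∑ y ∈ T, ((S.filter fun x => Rel B u v x y).card : ℝ)) ≤ ∑ _y ∈ T, (1 : ℝ) := by
            refine sum_le_sum fun y _ => le_trans ?_ h1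
            exact_mod_cast card_le_univ _
        _ = T.card := by rw [sum_const, nsmul_eq_mul, mul_one]
        _ ≤ 1 := by rw [hT]; exact h2
    have hN : N = 1 := le_antisymm h2 hN1
    have hμ1 : μ = 1 := by
      rw [hN] at hμN
      exact (pow_eq_one_iff_of_nonneg hμ0.le (by omega)).1 hμN
    rw [hN, hμ1] at hcon
    linarith

end Pool.Agent.K7.H41.BE
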