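import Pool.Agent.K7.H41.BE.Struct

/-!
# Bilinear maps with many zeros: the structure
-/

set_option autoImplicit false

namespace Pool.Agent.K7.H41.BE

open Finset

section

variable {G G' H : Type} [AddCommGroup G] [AddCommGroup G'] [AddCommGroup H]

/-- the elements of `K` which are orthogonal to a finite set -/
def orthF (B : G →+ G' →+ H) (K : AddSubgroup G) (Y : Finset G') : AddSubgroup G where
  carrier := {h | h ∈ K ∧ ∀ y ∈ Y, B h y = 0}
  zero_mem' := ⟨K.zero_mem, fun y _ => by simp⟩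
  neg_mem' := fun {h} hh => ⟨K.neg_mem hh.1, fun y hy => by
    rw [map_neg, AddMonoidHom.neg_apply, hh.2 y hy, neg_zero]⟩
  add_mem' := fun {h k} hh hk => ⟨K.add_mem hh.1 hk.1, fun y hy => by
    rw [map_add, AddMonoidHom.add_apply, hh.2 y hy, hk.2 y hy, add_zero]⟩

theorem orthF_le (B : G →+ G' →+ H) (K : AddSubgroup G) (Y : Finset G') : orthF B K Y ≤ K :=
  fun _ hh => hh.1

theorem orthF_large [Fintype G] (B : G →+ G' →+ H) (K : AddSubgroup G) (q : ℝ) (hq : 0 < q)
    (K2 : AddSubgroup G') (hK : ∀ y ∈ K2, q * sz K ≤ sz (orthF B K {y})) :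
    ∀ Y : Finset G', (∀ y ∈ Y, y ∈ K2) → q ^ Y.card * sz K ≤ sz (orthF B K Y) := by
  classical
  intro Y
  induction Y using Finset.induction_on with
  | empty =>
    intro _
    rw [card_empty, pow_zero, one_mul]
    refine Nat.cast_le.2 (sz_mono fun h hh => ⟨hh, fun y hy => absurd hy (notMem_empty y)⟩)
  | insert y Y hy ih =>
    intro hY
    have h1 := ih fun z hz => hY z (mem_insert_of_mem hz)
    have h2 := hK y (hY y (mem_insert_self _ _))
    have h3 := sz_mul_le (orthF B K Y) (orthF B K {y}) K (orthF_le B K Y) (orthF_le B K {y})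
    have h4 : sz (orthF B K Y ⊓ orthF B K {y}) ≤ sz (orthF B K (insert y Y)) := by
      refine sz_mono fun h hh => ⟨hh.1.1, fun z hz => ?_⟩
      rcases mem_insert.1 hz with rfl | hz
      · exact hh.2.2 z (mem_singleton_self z)
      · exact hh.1.2 z hz
    have hpos : (0 : ℝ) < sz K := by exact_mod_cast sz_pos K
    have h5 : (sz (orthF B K Y) : ℝ) * sz (orthF B K {y}) ≤ sz (orthF B K (insert y Y)) * sz K := by
      exact_mod_cast h3.trans (Nat.mul_le_mul_right _ h4)
    have h6 : (q ^ Y.card * sz K) * (q * sz K) ≤ (sz (orthF B K Y) : ℝ) * sz (orthF B K {y}) :=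
      mul_le_mul h1 h2 (by positivity) (Nat.cast_nonneg _)
    rw [card_insert_of_notMem hy]
    refine le_of_mul_le_mul_right ?_ hpos
    calc q ^ (Y.card + 1) * sz K * sz K = (q ^ Y.card * sz K) * (q * sz K) := by ring
      _ ≤ _ := h6.trans h5

theorem card_sub [Fintype G] (K : AddSubgroup G) [Fintype K] : Fintype.card K = sz K := by
  classical
  unfold sz
  refine Fintype.card_of_subtype _ fun x => ?_
  simp

/-- `B` restricted to `K × G'`, with the two variables exchanged -/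
def flipR (B : G →+ G' →+ H) (K : AddSubgroup G) : G' →+ K →+ H := (B.comp K.subtype).flip

theorem flipR_apply (B : G →+ G' →+ H) (K : AddSubgroup G) (y : G') (h : K) : flipR B K y h = B h y := rfl

theorem pz_flipR [Fintype G] [Fintype G'] (B : G →+ G' →+ H) (K : AddSubgroup G) [Fintype K] (y : G') :
    pz (flipR B K) y = sz (orthF B K {y}) := by
  classical
  unfold pz sz
  refine card_bij (fun h _ => (h : G)) ?_ ?_ ?_
  · intro h hh
    refine mem_filter.2 ⟨mem_univ _, h.2, fun z hz => ?_⟩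
    rw [mem_singleton.1 hz]
    exact (mem_filter.1 hh).2
  · intro h _ h' _ e
    exact Subtype.ext e
  · intro h hh
    have hh' := (mem_filter.1 hh).2
    exact ⟨⟨h, hh'.1⟩, mem_filter.2 ⟨mem_univ _, hh'.2 y (mem_singleton_self y)⟩, rfl⟩

theorem zeros_flipR [Fintype G] [Fintype G'] (B : G →+ G' →+ H) (K : AddSubgroup G) [Fintype K] :
    zeros (flipR B K) = ∑ h : K, pz B h := by
  classical
  unfold zeros pz
  rw [card_filter, Fintype.sum_prod_type_right]
  refine sum_congr rfl fun h _ => ?_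
  rw [card_filter]
  rfl

/-- **The structure of the bilinear maps with many zeros.** -/
theorem structure_zeros (p : ℝ) (hp : 0 < p) (hp' : p ≤ 1 / 2) : ∃ (M : ℕ) (δ : ℝ), 0 < δ ∧
    ∀ (G G' H : Type) [AddCommGroup G] [AddCommGroup G'] [AddCommGroup H] [Fintype G] [Fintype G']
      (B : G →+ G' →+ H), 2 * p * (Fintype.card G * Fintype.card G') ≤ zeros B →
      ∃ (K : AddSubgroup G) (K' : AddSubgroup G') (HF : Finset H), Closed HF ∧ HF.card ≤ M ∧
        (∀ h ∈ K, ∀ y ∈ K', B h y ∈ HF) ∧ δ * Fintype.card G ≤ sz K ∧ δ * Fintype.card G' ≤ sz K' := by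
  classical
  set p₁ : ℝ := p ^ 4 / 2 with hp₁
  have hp4 : p ^ 4 ≤ 1 := pow_le_one₀ hp.le (by linarith)
  have hp₁0 : 0 < p₁ := by positivity
  have hp₁' : p₁ ≤ 1 / 2 := by
    rw [hp₁]
    linarith
  set M : ℕ := ⌈1 / p ^ 4⌉₊ with hM
  refine ⟨M, min (p₁ * (p₁ ^ 4) ^ M) (p₁ ^ 4 / 2), by positivity, ?_⟩
  intro G G' H _ _ _ _ _ B hz
  have hm0 : (0 : ℝ) < Fintype.card G' := by exact_mod_cast Fintype.card_pos
  obtain ⟨K₁, hK₁, hgood⟩ := good_subgroup B p hp hp' hz
  have hsK : (0 : ℝ) < sz K₁ := by exact_mod_cast sz_pos K₁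
  haveI : Fintype K₁ := Fintype.ofFinite _
  have hz1 : 2 * p₁ * (Fintype.card G' * Fintype.card K₁) ≤ zeros (flipR B K₁) := by
    rw [zeros_flipR]
    push_cast
    calc 2 * p₁ * (Fintype.card G' * Fintype.card K₁) = ∑ _h : K₁, p ^ 4 * Fintype.card G' := by
          rw [sum_const, nsmul_eq_mul, card_univ, hp₁]
          ring
      _ ≤ _ := sum_le_sum fun h _ => hgood h h.2
  obtain ⟨K₂, hK₂, hgood₂⟩ := good_subgroup (flipR B K₁) p₁ hp₁0 hp₁' hz1
  have hgood₃ : ∀ y ∈ K₂, p₁ ^ 4 * sz K₁ ≤ sz (orthF B K₁ {y}) := by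
    intro y hy
    have := hgood₂ y hy
    rwa [card_sub, pz_flipR] at this
  -- the direction with the largest image
  obtain ⟨h₀, hh₀, hmax⟩ := exists_max_image (univ.filter fun h : G => h ∈ K₁)
    (fun h => ((univ.filter fun y : G' => y ∈ K₂).image fun y => B h y).card)
    ⟨0, mem_filter.2 ⟨mem_univ _, K₁.zero_mem⟩⟩
  have hh₀' := (mem_filter.1 hh₀).2
  set H₀ : Finset H := (univ.filter fun y : G' => y ∈ K₂).image fun y => B h₀ y with hH₀
  have hH₀M : H₀.card ≤ M := by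
    have h1 : H₀ ⊆ (univ : Finset G').image fun y => B h₀ y := image_subset_image (filter_subset _ _)
    have h2 := pz_mul B h₀ ((univ : Finset G').image fun y => B h₀ y)
      (fun y => mem_image_of_mem _ (mem_univ y)) (fun c hc => by
        obtain ⟨y, -, hy⟩ := mem_image.1 hc
        exact ⟨y, hy⟩)
    have h3 := hgood h₀ hh₀'
    have h4 : (((univ : Finset G').image fun y => B h₀ y).card : ℝ) * (p ^ 4 * Fintype.card G') ≤
        Fintype.card G' := by
      calc (((univ : Finset G').image fun y => B h₀ y).card : ℝ) * (p ^ 4 * Fintype.card G') ≤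
            ((univ : Finset G').image fun y => B h₀ y).card * pz B h₀ :=
              mul_le_mul_of_nonneg_left h3 (Nat.cast_nonneg _)
        _ = Fintype.card G' := by exact_mod_cast h2
    have h5 : (((univ : Finset G').image fun y => B h₀ y).card : ℝ) ≤ 1 / p ^ 4 := by
      rw [le_div_iff₀ (by positivity)]
      refine le_of_mul_le_mul_right ?_ hm0
      rw [one_mul, mul_assoc]
      exact h4
    have h6 : (H₀.card : ℝ) ≤ M := by
      calc (H₀.card : ℝ) ≤ ((univ : Finset G').image fun y => B h₀ y).card := by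
            exact_mod_cast card_le_card h1
        _ ≤ 1 / p ^ 4 := h5
        _ ≤ M := Nat.le_ceil _
    exact_mod_cast h6
  have hcl : Closed H₀ := by
    refine ⟨mem_image.2 ⟨0, mem_filter.2 ⟨mem_univ _, K₂.zero_mem⟩, map_zero _⟩, ?_⟩
    intro a ha b hb
    obtain ⟨y, hy, rfl⟩ := mem_image.1 ha
    obtain ⟨y', hy', rfl⟩ := mem_image.1 hb
    exact mem_image.2 ⟨y - y', mem_filter.2 ⟨mem_univ _,
      K₂.sub_mem (mem_filter.1 hy).2 (mem_filter.1 hy').2⟩, map_sub _ _ _⟩
  have hch : ∀ c ∈ H₀, ∃ y, y ∈ K₂ ∧ B h₀ y = c := by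
    intro c hc
    obtain ⟨y, hy, hyc⟩ := mem_image.1 hc
    exact ⟨y, (mem_filter.1 hy).2, hyc⟩
  choose! g hg1 hg2 using hch
  set Y : Finset G' := H₀.image g with hY
  have hYK : ∀ y ∈ Y, y ∈ K₂ := by
    intro y hy
    obtain ⟨c, hc, rfl⟩ := mem_image.1 hy
    exact hg1 c hc
  have hYc : Y.card ≤ M := card_image_le.trans hH₀M
  refine ⟨orthF B K₁ Y, K₂, H₀, hcl, hH₀M, ?_, ?_, ?_⟩
  · intro h hh y hy
    have hsub : H₀ ⊆ (univ.filter fun y : G' => y ∈ K₂).image fun y => B (h₀ + h) y := by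
      intro c hc
      refine mem_image.2 ⟨g c, mem_filter.2 ⟨mem_univ _, hg1 c hc⟩, ?_⟩
      rw [map_add, AddMonoidHom.add_apply, hg2 c hc, hh.2 (g c) (mem_image_of_mem g hc), add_zero]
    have heq := eq_of_subset_of_card_le hsub
      (hmax (h₀ + h) (mem_filter.2 ⟨mem_univ _, K₁.add_mem hh₀' hh.1⟩))
    have h1 : B (h₀ + h) y ∈ H₀ := by
      rw [heq]
      exact mem_image_of_mem _ (mem_filter.2 ⟨mem_univ _, hy⟩)
    have h2 : B h₀ y ∈ H₀ := mem_image_of_mem _ (mem_filter.2 ⟨mem_univ _, hy⟩)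
    have h3 := hcl.2 _ h1 _ h2
    rwa [map_add, AddMonoidHom.add_apply, add_sub_cancel_left] at h3
  · have h1 := orthF_large B K₁ (p₁ ^ 4) (by positivity) K₂ hgood₃ Y hYK
    have h2 : (p₁ ^ 4) ^ M ≤ (p₁ ^ 4) ^ Y.card :=
      pow_le_pow_of_le_one (by positivity) (pow_le_one₀ hp₁0.le (by linarith)) hYc
    calc min (p₁ * (p₁ ^ 4) ^ M) (p₁ ^ 4 / 2) * Fintype.card G ≤ (p₁ * (p₁ ^ 4) ^ M) * Fintype.card G :=
          mul_le_mul_of_nonneg_right (min_le_left _ _) (Nat.cast_nonneg _)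
      _ = (p₁ ^ 4) ^ M * (p₁ * Fintype.card G) := by ring
      _ ≤ (p₁ ^ 4) ^ Y.card * sz K₁ := mul_le_mul h2 hK₁ (by positivity) (by positivity)
      _ ≤ _ := h1
  · exact (mul_le_mul_of_nonneg_right (min_le_right _ _) (Nat.cast_nonneg _)).trans hK₂

end

end Pool.Agent.K7.H41.BE
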